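import Pool.Agent.H5.OR.Targets

/-!
# Row KI
-/

set_option autoImplicit false

open scoped Classical

namespace ORg

/-- homomorphisms from `TK p q` -/
theorem tk_lift (p q : ℤ) (K : Type) [Group K] (a t : K) (h : a ^ p = t ^ q) :
    ∃ f : TK p q →* K, f (tkA p q) = a ∧ f (tkT p q) = t := by
  let g : Option Unit → K := fun z => match z with
    | none => t
    | some _ => a
  have hg : ∀ r ∈ ({relC (FreeGroup.of ()) p q} : Set (FreeGroup (Option Unit))),
      FreeGroup.lift g r = 1 := by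
    intro r hr
    rw [Set.mem_singleton_iff] at hr
    subst hr
    simp only [relC, FreeGroup.map.of, map_mul, map_inv, map_zpow, FreeGroup.lift_apply_of]
    change a ^ p * (t ^ q)⁻¹ = 1
    rw [h, mul_inv_cancel]
  exact ⟨PresentedGroup.toGroup hg, PresentedGroup.toGroup.of hg, PresentedGroup.toGroup.of hg⟩

theorem tk_ext (p q : ℤ) (K : Type) [Group K] (f g : TK p q →* K)
    (ha : f (tkA p q) = g (tkA p q)) (ht : f (tkT p q) = g (tkT p q)) : f = g := by
  ext z
  cases z with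
  | none => exact ht
  | some u => exact ha

theorem tk_rel (p q : ℤ) : tkA p q ^ p = tkT p q ^ q := by
  have h : PresentedGroup.mk ({relC (FreeGroup.of ()) p q} : Set (FreeGroup (Option Unit)))
      (relC (FreeGroup.of ()) p q) = 1 := PresentedGroup.one_of_mem rfl
  rw [relC, map_mul, map_inv, map_zpow, map_zpow, FreeGroup.map.of] at h
  exact mul_inv_eq_one.mp h

theorem tk_central (p q : ℤ) (g : TK p q) : g * tkA p q ^ p = tkA p q ^ p * g := by
  have h : (MulAut.conj (tkA p q ^ p)).toMonoidHom = MonoidHom.id (TK p q) := by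
    apply tk_ext
    · simp only [MulEquiv.toMonoidHom_eq_coe, MonoidHom.coe_coe, MulAut.conj_apply,
        MonoidHom.id_apply]
      rw [← zpow_add_one, add_comm, zpow_one_add, mul_inv_cancel_right]
    · simp only [MulEquiv.toMonoidHom_eq_coe, MonoidHom.coe_coe, MulAut.conj_apply,
        MonoidHom.id_apply]
      rw [tk_rel, ← zpow_add_one, add_comm, zpow_one_add, mul_inv_cancel_right]
  have h2 := DFunLike.congr_fun h g
  simp only [MulEquiv.toMonoidHom_eq_coe, MonoidHom.coe_coe, MulAut.conj_apply,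
    MonoidHom.id_apply] at h2
  rw [mul_inv_eq_iff_eq_mul] at h2
  exact h2.symm

/-- the generator of the cyclic group of order `n` -/
def cyc (n : ℕ) : Multiplicative (ZMod n) := Multiplicative.ofAdd 1

theorem cyc_zpow (n : ℕ) (m : ℤ) : cyc n ^ m = 1 ↔ (n : ℤ) ∣ m := by
  have h : cyc n ^ m = Multiplicative.ofAdd ((m : ℤ) : ZMod n) := by
    rw [cyc, ← ofAdd_zsmul]
    congr 1
    simp
  rw [h, ofAdd_eq_one]
  exact ZMod.intCast_zmod_eq_zero_iff_dvd m n

theorem cyc_pow_ne (n : ℕ) (h : 2 ≤ n) : cyc n ≠ 1 := by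
  intro hc
  have h1 : cyc n ^ (1 : ℤ) = 1 := by rw [zpow_one, hc]
  rw [cyc_zpow] at h1
  have := Int.le_of_dvd one_pos h1
  omega

theorem central_dvd (p q : ℤ) (hq : 2 ≤ |q|) (m : ℤ)
    (h : ∀ g : TK p q, g * tkA p q ^ m = tkA p q ^ m * g) : p ∣ m := by
  set A := Multiplicative (ZMod p.natAbs) with hA
  set B := Multiplicative (ZMod q.natAbs) with hB
  let al : Equiv.Perm (A ⊕ B) :=
    Equiv.Perm.sumCongrHom A B (Equiv.mulLeft (cyc p.natAbs), 1)
  let ta : Equiv.Perm (A ⊕ B) :=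
    Equiv.Perm.sumCongrHom A B (1, Equiv.mulLeft (cyc q.natAbs))
  let s : Equiv.Perm (A ⊕ B) := Equiv.swap (Sum.inl 1) (Sum.inr 1)
  have hal : ∀ k : ℤ, al ^ k = Equiv.Perm.sumCongrHom A B (Equiv.mulLeft (cyc p.natAbs ^ k), 1) := by
    intro k
    simp only [al]
    rw [← map_zpow, Prod.pow_mk, Equiv.zpow_mulLeft, one_zpow]
  have hta : ∀ k : ℤ, ta ^ k = Equiv.Perm.sumCongrHom A B (1, Equiv.mulLeft (cyc q.natAbs ^ k)) := by
    intro k
    simp only [ta]
    rw [← map_zpow, Prod.pow_mk, Equiv.zpow_mulLeft, one_zpow]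
  have h1 : al ^ p = 1 := by
    rw [hal, (cyc_zpow _ _).mpr (by simp [Int.natAbs_dvd]), Equiv.mulLeft_one]
    exact map_one _
  have h2 : (s * ta * s⁻¹) ^ q = 1 := by
    rw [conj_zpow, hta, (cyc_zpow _ _).mpr (by simp [Int.natAbs_dvd]), Equiv.mulLeft_one]
    rw [show ((1, 1) : Equiv.Perm A × Equiv.Perm B) = 1 from rfl, map_one, mul_one,
      mul_inv_cancel]
  obtain ⟨f, hfa, hft⟩ := tk_lift p q _ al (s * ta * s⁻¹) (h1.trans h2.symm)
  have h3 := congrArg f (h (tkT p q))
  rw [map_mul, map_mul, map_zpow, hfa, hft] at h3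
  have h4 := DFunLike.congr_fun h3 (Sum.inl 1)
  change (s * ta * s⁻¹) ((al ^ m) (Sum.inl 1)) = (al ^ m) ((s * ta * s⁻¹) (Sum.inl 1)) at h4
  rw [hal] at h4
  have hc1 : cyc q.natAbs ≠ 1 := cyc_pow_ne _ (by
    have := Int.natCast_natAbs q
    omega)
  have h5 : (s * ta * s⁻¹) (Sum.inl 1) = Sum.inr (cyc q.natAbs) := by
    rw [Equiv.Perm.mul_apply, Equiv.Perm.mul_apply]
    have e1 : s⁻¹ (Sum.inl 1) = Sum.inr 1 := by
      simp [s]
    rw [e1]
    have e2 : ta (Sum.inr 1) = Sum.inr (cyc q.natAbs) := by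
      simp [ta]
    rw [e2]
    simp only [s]
    rw [Equiv.swap_apply_of_ne_of_ne]
    · simp
    · intro hh
      exact hc1 (Sum.inr_injective hh)
  rw [h5] at h4
  have e3 : (Equiv.Perm.sumCongrHom A B) (Equiv.mulLeft (cyc p.natAbs ^ m), 1)
      (Sum.inr (cyc q.natAbs)) = Sum.inr (cyc q.natAbs) := by
    simp
  rw [e3] at h4
  have e4 : (Equiv.Perm.sumCongrHom A B) (Equiv.mulLeft (cyc p.natAbs ^ m), 1)
      (Sum.inl 1) = Sum.inl (cyc p.natAbs ^ m) := by
    simp
  rw [e4] at h4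
  by_contra hpm
  have hne : cyc p.natAbs ^ m ≠ 1 := by
    rw [Ne, cyc_zpow, Int.natAbs_dvd]
    exact hpm
  have h6 : (s * ta * s⁻¹) (Sum.inl (cyc p.natAbs ^ m)) = Sum.inl (cyc p.natAbs ^ m) := by
    rw [Equiv.Perm.mul_apply, Equiv.Perm.mul_apply]
    have e5 : s (Sum.inl (cyc p.natAbs ^ m)) = Sum.inl (cyc p.natAbs ^ m) := by
      simp only [s]
      rw [Equiv.swap_apply_of_ne_of_ne]
      · intro hh
        exact hne (Sum.inl_injective hh)
      · simp
    have e6 : s⁻¹ (Sum.inl (cyc p.natAbs ^ m)) = Sum.inl (cyc p.natAbs ^ m) := by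
      rw [Equiv.Perm.inv_eq_iff_eq, e5]
    rw [e6]
    have e7 : ta (Sum.inl (cyc p.natAbs ^ m)) = Sum.inl (cyc p.natAbs ^ m) := by
      simp [ta]
    rw [e7, e5]
  rw [h6] at h4
  exact Sum.inl_ne_inr h4

theorem pf_KI : T_KI := by
  intro p q hp hq
  refine ⟨fun m => ⟨central_dvd p q hq m, ?_⟩, ?_⟩
  · rintro ⟨k, rfl⟩ g
    rw [zpow_mul]
    have h : Commute g (tkA p q ^ p) := tk_central p q g
    exact (h.zpow_right k)
  · set N := Subgroup.normalClosure {tkA p q} with hN
    -- the map to the cyclic group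
    obtain ⟨f, hfa, hft⟩ := tk_lift p q (Multiplicative (ZMod q.natAbs)) 1 (cyc q.natAbs) (by
      rw [one_zpow, (cyc_zpow _ _).mpr (by simp [Int.natAbs_dvd])])
    have hker : N ≤ f.ker := by
      rw [hN]
      apply Subgroup.normalClosure_le_normal
      intro x hx
      rw [Set.mem_singleton_iff] at hx
      subst hx
      exact hfa
    let F : TK p q ⧸ N →* Multiplicative (ZMod q.natAbs) := QuotientGroup.lift N f hker
    -- the inverse
    let t1 : TK p q ⧸ N := QuotientGroup.mk (tkT p q)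
    have ha1 : (QuotientGroup.mk (tkA p q) : TK p q ⧸ N) = 1 := by
      rw [QuotientGroup.eq_one_iff]
      exact Subgroup.subset_normalClosure rfl
    have ht1 : t1 ^ q = 1 := by
      have : (QuotientGroup.mk (tkT p q ^ q) : TK p q ⧸ N) = QuotientGroup.mk (tkA p q ^ p) := by
        rw [tk_rel]
      rw [QuotientGroup.mk_zpow, QuotientGroup.mk_zpow, ha1, one_zpow] at this
      exact this
    let z : ℤ →+ Additive (TK p q ⧸ N) := zmultiplesHom _ (Additive.ofMul t1)
    have hz : z (q.natAbs : ℤ) = 0 := by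
      simp only [z, zmultiplesHom_apply]
      rw [← ofMul_zpow]
      rcases Int.natAbs_eq q with h | h
      · rw [← h, ht1]
        rfl
      · have : ((q.natAbs : ℤ)) = -q := by omega
        rw [this, zpow_neg, ht1, inv_one]
        rfl
    let G0 : ZMod q.natAbs →+ Additive (TK p q ⧸ N) := ZMod.lift q.natAbs ⟨z, hz⟩
    let G1 : Multiplicative (ZMod q.natAbs) →* TK p q ⧸ N := AddMonoidHom.toMultiplicativeLeft G0
    have hG1 : G1 (cyc q.natAbs) = t1 := by
      have h1 : G0 ((1 : ℤ) : ZMod q.natAbs) = z 1 := ZMod.lift_coe _ _ _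
      have h2 : z 1 = Additive.ofMul t1 := by
        simp [z]
      rw [h2] at h1
      simp only [Int.cast_one] at h1
      change Additive.toMul (G0 1) = t1
      rw [h1]
      rfl
    have hF : F t1 = cyc q.natAbs := by
      change F (QuotientGroup.mk (tkT p q)) = _
      rw [QuotientGroup.lift_mk]
      exact hft
    refine ⟨MonoidHom.toMulEquiv F G1 ?_ ?_⟩
    · apply QuotientGroup.monoidHom_ext
      apply tk_ext
      · change G1 (F (QuotientGroup.mk (tkA p q))) = QuotientGroup.mk (tkA p q)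
        rw [ha1, map_one, map_one]
      · change G1 (F t1) = t1
        rw [hF, hG1]
    · refine MonoidHom.ext fun x => ?_
      have hx : ∃ m : ℤ, x = cyc q.natAbs ^ m := by
        obtain ⟨m, hm⟩ := ZMod.intCast_surjective (Multiplicative.toAdd x)
        refine ⟨m, ?_⟩
        rw [cyc, ← ofAdd_zsmul]
        apply Multiplicative.toAdd.injective
        simp [hm]
      obtain ⟨m, rfl⟩ := hx
      simp only [MonoidHom.comp_apply, MonoidHom.id_apply, map_zpow, hG1, hF]

end ORg
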