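import Pool.Agent.H1.OR.BR
import Pool.Agent.H11.OR.TA
import Pool.Agent.H12.OR.KD
import Pool.Agent.H13.OR.AM
import Pool.Agent.H13.OR.FF
import Pool.Agent.H16.OR.AG
import Pool.Agent.H16.OR.PA
import Pool.Agent.H16.OR.TE
import Pool.Agent.H17.ORW.WA
import Pool.Agent.H23.OR.BG
import Pool.Agent.H23.OR.CC
import Pool.Agent.H23.OR.CT
import Pool.Agent.H23.OR.KA
import Pool.Agent.H23.OR.PB
import Pool.Agent.H23.OR.RB
import Pool.Agent.H23.OR.X2
import Pool.Agent.H35.OR.SC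
import Pool.Agent.H38.OR.WB
import Pool.Agent.H39.OR.LS
import Pool.Agent.H39.OR.MM
import Pool.Agent.H42.OR.AC
import Pool.Agent.H42.OR.MB
import Pool.Agent.H5.OR.Gen.F3
import Pool.Agent.H5.OR.Gen.F4
import Pool.Agent.H5.OR.Gen.F5
import Pool.Agent.H5.OR.Gen.F7
import Pool.Agent.H5.OR.Gen.RI
import Pool.Agent.H5.OR.Gen.SU
import Pool.Agent.H5.OR.KI
import Pool.Agent.H53.OR.AP
import Pool.Agent.H56.OR.WF
import Pool.Agent.H56.OR.WL
import Pool.Agent.H56.OR.WM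
import Pool.Agent.H56.OR.WR
import Pool.Agent.H60.ORG.ML
import Pool.Agent.H63.OR.KC
import Pool.Agent.H66.OR.AB
import Pool.Agent.H66.OR.BC
import Pool.Agent.H66.OR.BT
import Pool.Agent.H66.OR.BW
import Pool.Agent.H66.OR.Base
import Pool.Agent.H70.OR.CA
import Pool.Agent.H70.OR.CL
import Pool.Agent.H70.OR.SA
import Pool.Agent.H70.OR.TS
import Pool.Agent.H84.OR.TC
import Pool.Agent.H84.OR.TH
import Pool.Agent.H84.OR.TK
import Pool.Agent.H84.OR.TL
import Pool.Agent.H84.OR.TP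
import Pool.Agent.H86.OR.AT
import Pool.Agent.H86.OR.AV
import Pool.Agent.H86.OR.WG
import Pool.Agent.H89.OR.MA
import Pool.Agent.H94.OR.TN
import Pool.Agent.H97.OR.MD

/-!
# Isomorphism problem for one-relator groups (MP_e1fd52_al): all rows put together
-/

set_option autoImplicit false

namespace ORg.All

open ORg

theorem WA : T_WA := _root_.Pool.Agent.H17.ORW.pf_WA

theorem WB : T_WB := _root_.Pool.Agent.H38.OR.pf_WB WA

theorem WL : T_WL := _root_.Pool.Agent.H56.OR.pf_WL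

theorem WM : T_WM := _root_.Pool.Agent.H56.OR.pf_WM WB WL

theorem WG : T_WG := _root_.ORg.pf_WG

theorem WF : T_WF := _root_.Pool.Agent.H56.OR.pf_WF

theorem WR : T_WR := _root_.Pool.Agent.H56.OR.pf_WR WM WG WF

theorem AG : T_AG := _root_.Pool.Agent.H16.OR.pf_AG

theorem AI : T_AI := _root_.Pool.Agent.H16.OR.pf_AI

theorem AT : T_AT := _root_.ORg.pf_AT

theorem AV : T_AV := _root_.ORg.pf_AV

theorem AM : T_AM := _root_.ORg.pf_AM AG AI AT AV

theorem TA : T_TA := _root_.Pool.Agent.H11.OR.pf_TA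

theorem TN : T_TN := _root_.Pool.Agent.H94.OR.pf_TN TA

theorem AC : T_AC := _root_.ORg.pf_AC TA TN

theorem AF : T_AF := _root_.Pool.Agent.H16.OR.pf_AF TA TN

theorem AP : T_AP := _root_.Pool.Agent.H53.ORx.pf_AP AM AF

theorem CT : T_CT := _root_.Pool.Agent.H23.OR.pf_CT AP

theorem TP : T_TP := _root_.Pool.Agent.H84.OR.pf_TP TA TN

theorem TH : T_TH := _root_.Pool.Agent.H84.OR.pf_TH TA TN TP

theorem TL : T_TL := _root_.Pool.Agent.H84.OR.pf_TL TA TN TP TH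

theorem TC : T_TC := _root_.Pool.Agent.H84.OR.pf_TC TA TN TP TH TL

theorem CC : T_CC := _root_.Pool.Agent.H23.OR.pf_CC

theorem ML : T_ML := _root_.Pool.Agent.H60.ORG.pf_ML CT TC CC

theorem FF : T_FF := _root_.ORg.pf_FF AP

theorem SU : ORh.T_SU := ORh.SUf.pf_SU AM AC ML FF

theorem NE : T_NE := _root_.Pool.Agent.H16.OR.pf_NE CT TC

theorem F3 : ORh.T_F3 := ORh.F3f.pf_F3 NE

theorem TS : T_TS := _root_.Pool.Agent.H70.OR.pf_TS TA TN TP

theorem CA : T_CA := _root_.Pool.Agent.H70.OR.CA.pf_CA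

theorem CL : T_CL := _root_.Pool.Agent.H70.OR.pf_CL CA

theorem MM : T_MM := _root_.Pool.Agent.H39.OR.pf_MM CA CL

theorem MA : T_MA := _root_.Pool.Agent.H89.OR.pf_MA CA CL MM

theorem MB : T_MB := _root_.ORg.pf_MB CA CL

theorem MD : T_MD := _root_.Pool.Agent.H97.OR.pf_MD CA CL MM

theorem MC : T_MC := _root_.Pool.Agent.H97.OR.pf_MC CA CL MB MD

theorem SA : T_SA := _root_.Pool.Agent.H70.OR.SA.pf_SA TA

theorem SB : T_SB := _root_.Pool.Agent.H97.OR.pf_SB TA CL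

theorem TE : T_TE := _root_.Pool.Agent.H16.OR.pf_TE TA TN

theorem SC : T_SC := _root_.Pool.Agent.H35.ORg.pf_SC TA TE CL ML SB

theorem LS : T_LS := _root_.Pool.Agent.H39.OR.LS.pf_LS TA TP TH TS CL ML MA MC SA SB SC

theorem F4 : ORh.T_F4 := ORh.F4f.pf_F4 TA TN LS FF

theorem F5 : ORh.T_F5 := ORh.F5f.pf_F5 TA TN F4

theorem F6 : ORh.T_F6 := ORh.F5f.pf_F6 LS AP

theorem F7 : ORh.T_F7 := ORh.F7f.pf_F7 TA TN F3 F5 F6

theorem X2 : T_X2 := _root_.Pool.Agent.H23.OR.pf_X2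

theorem CO : ORh.T_CO := ORh.F5f.pf_CO SU F7 X2

theorem RI : ORh.T_RI := ORh.RIf.pf_RI WR CO

theorem PA : T_PA := _root_.Pool.Agent.H16.OR.pf_PA

theorem PB : T_PB := _root_.Pool.Agent.H23.OR.pf_PB

theorem BK : T_BK := _root_.Pool.Agent.H66.OR.pf_BK

theorem BM : T_BM := _root_.Pool.Agent.H66.OR.pf_BM

theorem BA : T_BA := _root_.Pool.Agent.H66.OR.pf_BA

theorem BC : T_BC := _root_.Pool.Agent.H66.OR.pf_BC BK BM BA

theorem KC : T_KC := _root_.Pool.Agent.H63.OR.pf_KC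

theorem KI : T_KI := _root_.ORg.pf_KI

theorem KD : T_KD := _root_.Pool.Agent.H12.OR.pf_KD KI

theorem RB : T_RB := _root_.Pool.Agent.H23.OR.RB.pf_RB

theorem BW : T_BW := _root_.Pool.Agent.H66.OR.pf_BW

theorem BR : T_BR := _root_.Pool.Agent.H1.OR.pf_BR

theorem BT : T_BT := _root_.Pool.Agent.H66.OR.pf_BT BR BW

theorem AB : T_AB := _root_.Pool.Agent.H66.OR.pf_AB BW BK

theorem BD : T_BD := _root_.Pool.Agent.H66.OR.pf_BD BW BM KI

theorem TK : T_TK := _root_.Pool.Agent.H84.OR.pf_TK TA TN TC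

theorem KA : T_KA := _root_.Pool.Agent.H23.OR.KA.pf_KA TK

theorem BG : T_BG := _root_.Pool.Agent.H23.OR.BG.pf_BG BK

end ORg.All
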