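import Pool.Agent.H5.OR.Defs3

/-!
# Isomorphism problem for one-relator groups (MP_e1fd52_al): stars of groups, several words
(targets, board ors_modules)
-/

set_option autoImplicit false

open scoped Classical

namespace ORg

/-! ## 1. Stars -/

/-- SG: a star of groups is generated by the vertex groups -/
def T_SG : Prop := ∀ (I : Type) (H B : I → Type) (A G : Type) [∀ i, Group (H i)]
  [∀ i, Group (B i)] [Group A] [Group G] (f : ∀ i, H i →* A) (g : ∀ i, H i →* B i)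
  (a : A →* G) (b : ∀ i, B i →* G), IsSt f g a b → a.range ⊔ ⨆ i, (b i).range = ⊤

/-- SI: the vertex groups embed -/
def T_SI : Prop := ∀ (I : Type) (H B : I → Type) (A G : Type) [∀ i, Group (H i)]
  [∀ i, Group (B i)] [Group A] [Group G] (f : ∀ i, H i →* A) (g : ∀ i, H i →* B i)
  (a : A →* G) (b : ∀ i, B i →* G), IsSt f g a b → (∀ i, Function.Injective (f i)) →
  (∀ i, Function.Injective (g i)) → Function.Injective a ∧ ∀ i, Function.Injective (b i)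

/-- SF: the side function of the edge `i` -/
def T_SF : Prop := ∀ (I : Type) (H B : I → Type) (A G : Type) [∀ i, Group (H i)]
  [∀ i, Group (B i)] [Group A] [Group G] (f : ∀ i, H i →* A) (g : ∀ i, H i →* B i)
  (a : A →* G) (b : ∀ i, B i →* G), IsSt f g a b → ∀ i : I, ∃ τ : G → Bool, τ 1 = true ∧
  (∀ (x : G) (y : A), τ (x * a y) = τ x) ∧
  (∀ (j : I) (x : G) (y : B j), j ≠ i → τ (x * b j y) = τ x) ∧
  (∀ (x : G) (y : B i), xor (τ (x * b i y)) (decide (x * b i y ∈ (a.comp (f i)).range)) =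
    xor (τ x) (decide (x ∈ (a.comp (f i)).range)))

/-- SV: the tree, from the side functions -/
def T_SV : Prop := ∀ (G I : Type) [Group G] (A : Subgroup G) (B C : I → Subgroup G)
  (τ : I → G → Bool), A ⊔ ⨆ i, B i = ⊤ → (∀ i, C i ≤ A) → (∀ i, C i ≤ B i) →
  (∀ i, τ i 1 = true) → (∀ i x, ∀ y ∈ A, τ i (x * y) = τ i x) →
  (∀ i j x, j ≠ i → ∀ y ∈ B j, τ i (x * y) = τ i x) →
  (∀ i x, ∀ y ∈ B i, xor (τ i (x * y)) (decide (x * y ∈ C i)) =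
    xor (τ i x) (decide (x ∈ C i))) →
  (∀ i, A ⊓ B i = C i) ∧ ∃ (S : GTree G) (r : S.V) (b : I → S.V), IsStT S A B r b

/-- SM: the tree of a star of groups -/
def T_SM : Prop := ∀ (I : Type) (H B : I → Type) (A G : Type) [∀ i, Group (H i)]
  [∀ i, Group (B i)] [Group A] [Group G] (f : ∀ i, H i →* A) (g : ∀ i, H i →* B i)
  (a : A →* G) (b : ∀ i, B i →* G), IsSt f g a b → (∀ i, Function.Injective (f i)) →
  (∀ i, Function.Injective (g i)) → Function.Injective a ∧ (∀ i, Function.Injective (b i)) ∧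
  (∀ i x y, a x = b i y → ∃ h, x = f i h ∧ y = g i h) ∧
  ∃ (S : GTree G) (r : S.V) (v : I → S.V), IsStT S a.range (fun i => (b i).range) r v

/-- SK: malnormal edge groups -/
def T_SK : Prop := ∀ (G I : Type) [Group G] (A : Subgroup G) (B : I → Subgroup G) (S : GTree G)
  (r : S.V) (b : I → S.V), IsStT S A B r b →
  (∀ i, ∀ x ∈ B i, ∀ c ∈ A, c ∈ B i → c ≠ 1 → x * c * x⁻¹ ∈ A → x ∈ A) → S.AC

/-- SE: change of the leaves by isomorphisms -/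
def T_SE : Prop := ∀ (I : Type) (H B B' : I → Type) (A G : Type) [∀ i, Group (H i)]
  [∀ i, Group (B i)] [∀ i, Group (B' i)] [Group A] [Group G] (f : ∀ i, H i →* A)
  (g : ∀ i, H i →* B i) (a : A →* G) (b : ∀ i, B i →* G) (e : ∀ i, B i ≃* B' i),
  IsSt f g a b → IsSt f (fun i => (e i).toMonoidHom.comp (g i)) a
    (fun i => (b i).comp (e i).symm.toMonoidHom)

/-! ## 2. The theorem on several words -/

/-- M1: the tree -/
def T_M1 : Prop := ∀ (I : Type) (X Z : I → Type) (P G : Type) [Group P] [Group G]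
  (w : ∀ i, FreeGroup (X i)) (a : I → P) (iF : ∀ i, FreeGroup (X i ⊕ Z i) →* G) (iP : P →* G),
  Hy w a iF iP → ∃ (S : GTree G) (r : S.V) (b : I → S.V), Sx w a iF iP S r b

/-- M2: elements of the free factor of a leaf which fix a red vertex -/
def T_M2 : Prop := ∀ (I : Type) (X Z : I → Type) (P G : Type) [Group P] [Group G]
  (w : ∀ i, FreeGroup (X i)) (a : I → P) (iF : ∀ i, FreeGroup (X i ⊕ Z i) →* G) (iP : P →* G)
  (S : GTree G) (r : S.V) (b : I → S.V), Sx w a iF iP S r b → ∀ (i : I) (v : S.V), S.red v →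
  (∃ x : FreeGroup (X i), x ≠ 1 ∧ iF i (fl x) • v = v) → ∃ y : FreeGroup (X i),
  v = iF i (fl y) • r ∧ ∀ x : FreeGroup (X i), iF i (fl x) • v = v →
    y⁻¹ * x * y ∈ Subgroup.zpowers (w i)

/-- M3: `P` is mapped to a conjugate of `P'` -/
def T_M3 : Prop := ∀ (I : Type) (X Z : I → Type) (P G : Type) [Group P] [Group G]
  (w : ∀ i, FreeGroup (X i)) (a : I → P) (iF : ∀ i, FreeGroup (X i ⊕ Z i) →* G) (iP : P →* G)
  (S : GTree G) (r : S.V) (b : I → S.V)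
  (I' : Type) (X' Z' : I' → Type) (P' G' : Type) [Group P'] [Group G']
  (w' : ∀ i, FreeGroup (X' i)) (a' : I' → P') (iF' : ∀ i, FreeGroup (X' i ⊕ Z' i) →* G')
  (iP' : P' →* G') (S' : GTree G') (r' : S'.V) (b' : I' → S'.V),
  Sx w a iF iP S r b → Sx w' a' iF' iP' S' r' b' → ∀ φ : G ≃* G',
  ∃ g : G', ∀ x : G, x ∈ iP.range ↔ g * φ x * g⁻¹ ∈ iP'.range

/-- M4: the free factor of a leaf is mapped into the stabiliser of a blue vertex -/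
def T_M4 : Prop := ∀ (I : Type) (X Z : I → Type) (P G : Type) [Group P] [Group G]
  (w : ∀ i, FreeGroup (X i)) (a : I → P) (iF : ∀ i, FreeGroup (X i ⊕ Z i) →* G) (iP : P →* G)
  (S : GTree G) (r : S.V) (b : I → S.V)
  (I' : Type) (X' Z' : I' → Type) (P' G' : Type) [Group P'] [Group G']
  (w' : ∀ i, FreeGroup (X' i)) (a' : I' → P') (iF' : ∀ i, FreeGroup (X' i ⊕ Z' i) →* G')
  (iP' : P' →* G') (S' : GTree G') (r' : S'.V) (b' : I' → S'.V),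
  Sx w a iF iP S r b → Sx w' a' iF' iP' S' r' b' → ∀ φ : G ≃* G',
  (∀ x : G, x ∈ iP.range ↔ φ x ∈ iP'.range) → ∀ i : I, Nontrivial (X i) →
  ∃ v : S'.V, ¬ S'.red v ∧ ∀ y : FreeGroup (X i), φ (iF i (fl y)) • v = v

/-- M5: the free factor of a leaf is mapped into a leaf, up to conjugation -/
def T_M5 : Prop := ∀ (I : Type) (X Z : I → Type) (P G : Type) [Group P] [Group G]
  (w : ∀ i, FreeGroup (X i)) (a : I → P) (iF : ∀ i, FreeGroup (X i ⊕ Z i) →* G) (iP : P →* G)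
  (S : GTree G) (r : S.V) (b : I → S.V)
  (I' : Type) (X' Z' : I' → Type) (P' G' : Type) [Group P'] [Group G']
  (w' : ∀ i, FreeGroup (X' i)) (a' : I' → P') (iF' : ∀ i, FreeGroup (X' i ⊕ Z' i) →* G')
  (iP' : P' →* G') (S' : GTree G') (r' : S'.V) (b' : I' → S'.V),
  Sx w a iF iP S r b → Sx w' a' iF' iP' S' r' b' → ∀ φ : G ≃* G',
  (∀ x : G, x ∈ iP.range ↔ φ x ∈ iP'.range) → ∀ i : I, Nontrivial (X i) →
  ∃ j : I', ∃ p ∈ iP'.range, ∀ y : FreeGroup (X i), p * φ (iF i (fl y)) * p⁻¹ ∈ (iF' j).range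

/-- M6: it is mapped into a free factor of the leaf -/
def T_M6 : Prop := ∀ (I : Type) (X Z : I → Type) (P G : Type) [Group P] [Group G]
  (w : ∀ i, FreeGroup (X i)) (a : I → P) (iF : ∀ i, FreeGroup (X i ⊕ Z i) →* G) (iP : P →* G)
  (S : GTree G) (r : S.V) (b : I → S.V)
  (I' : Type) (X' Z' : I' → Type) (P' G' : Type) [Group P'] [Group G']
  (w' : ∀ i, FreeGroup (X' i)) (a' : I' → P') (iF' : ∀ i, FreeGroup (X' i ⊕ Z' i) →* G')
  (iP' : P' →* G') (S' : GTree G') (r' : S'.V) (b' : I' → S'.V),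
  Sx w a iF iP S r b → Sx w' a' iF' iP' S' r' b' → ∀ φ : G ≃* G',
  (∀ x : G, x ∈ iP.range ↔ φ x ∈ iP'.range) → ∀ (i : I) (j : I'), Nontrivial (X i) →
  ∀ p ∈ iP'.range, (∀ y : FreeGroup (X i), p * φ (iF i (fl y)) * p⁻¹ ∈ (iF' j).range) →
  Nontrivial (X' j) ∧ ∀ y : FreeGroup (X i), p * φ (iF i (fl y)) * p⁻¹ ∈ ((iF' j).comp fl).range

/-- M7: the bijection between the leaves -/
def T_M7 : Prop := ∀ (I : Type) (X Z : I → Type) (P G : Type) [Group P] [Group G]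
  (w : ∀ i, FreeGroup (X i)) (a : I → P) (iF : ∀ i, FreeGroup (X i ⊕ Z i) →* G) (iP : P →* G)
  (S : GTree G) (r : S.V) (b : I → S.V)
  (I' : Type) (X' Z' : I' → Type) (P' G' : Type) [Group P'] [Group G']
  (w' : ∀ i, FreeGroup (X' i)) (a' : I' → P') (iF' : ∀ i, FreeGroup (X' i ⊕ Z' i) →* G')
  (iP' : P' →* G') (S' : GTree G') (r' : S'.V) (b' : I' → S'.V),
  Sx w a iF iP S r b → Sx w' a' iF' iP' S' r' b' → Nonempty (G ≃* G') →
  ∃ (φ : G ≃* G') (σ : {i // Nontrivial (X i)} ≃ {j // Nontrivial (X' j)}),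
  (∀ x : G, x ∈ iP.range ↔ φ x ∈ iP'.range) ∧
  ∀ i : {i // Nontrivial (X i)}, ∃ p ∈ iP'.range, ∀ x : G,
    x ∈ ((iF i).comp fl).range ↔ p * φ x * p⁻¹ ∈ ((iF' (σ i)).comp fl).range

/-- M8: the quotient by the normal closure of the centre and the free factors -/
def T_M8 : Prop := ∀ (I : Type) (X Z : I → Type) (P G : Type) [Group P] [Group G]
  (v : ∀ i, FreeGroup (X i)) (a : I → P) (iF : ∀ i, FreeGroup (X i ⊕ Z i) →* G) (iP : P →* G),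
  IsSt (fun i => zpowersHom P (a i)) (fun i => zpowersHom (FreeGroup (X i ⊕ Z i)) (fl (v i)))
    iP iF →
  Nonempty (G ⧸ Subgroup.normalClosure ((iP.range : Set G) ∪
    ⋃ i, (((iF i).comp fl).range : Set G)) ≃* FreeGroup (Σ i, Z i))

/-- M9: the core of the theorem on several words -/
def T_M9 : Prop := ∀ (I : Type) (X Z : I → Type) (P G : Type) [Group P] [Group G]
  (w : ∀ i, FreeGroup (X i)) (a : I → P) (iF : ∀ i, FreeGroup (X i ⊕ Z i) →* G) (iP : P →* G)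
  (I' : Type) (X' Z' : I' → Type) (P' G' : Type) [Group P'] [Group G']
  (w' : ∀ i, FreeGroup (X' i)) (a' : I' → P') (iF' : ∀ i, FreeGroup (X' i ⊕ Z' i) →* G')
  (iP' : P' →* G'), Hy w a iF iP → Hy w' a' iF' iP' → Nonempty (G ≃* G') →
  Nonempty (FreeGroup (Σ i, Z i) ≃* FreeGroup (Σ i, Z' i)) ∧
  ∃ (σ : {i // Nontrivial (X i)} ≃ {j // Nontrivial (X' j)}) (β : P ≃* P'),
    ∀ i : {i // Nontrivial (X i)}, ∃ (α : FreeGroup (X i) ≃* FreeGroup (X' (σ i))) (g : P'),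
      (α (w i) = w' (σ i) ∧ β (a i) = g * a' (σ i) * g⁻¹) ∨
      (α (w i) = (w' (σ i))⁻¹ ∧ β (a i) = g * (a' (σ i))⁻¹ * g⁻¹)

/-- MI: the converse -/
def T_MI : Prop := ∀ (I : Type) (X Z : I → Type) (P G : Type) [Group P] [Group G]
  (w : ∀ i, FreeGroup (X i)) (a : I → P) (iF : ∀ i, FreeGroup (X i ⊕ Z i) →* G) (iP : P →* G)
  (I' : Type) (X' Z' : I' → Type) (P' G' : Type) [Group P'] [Group G']
  (w' : ∀ i, FreeGroup (X' i)) (a' : I' → P') (iF' : ∀ i, FreeGroup (X' i ⊕ Z' i) →* G')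
  (iP' : P' →* G'),
  IsSt (fun i => zpowersHom P (a i)) (fun i => zpowersHom (FreeGroup (X i ⊕ Z i)) (fl (w i)))
    iP iF →
  IsSt (fun i => zpowersHom P' (a' i))
    (fun i => zpowersHom (FreeGroup (X' i ⊕ Z' i)) (fl (w' i))) iP' iF' →
  Nonempty (FreeGroup (Σ i, Z i) ≃* FreeGroup (Σ i, Z' i)) →
  (∃ (σ : I ≃ I') (β : P ≃* P'), ∀ i, ∃ (α : FreeGroup (X i) ≃* FreeGroup (X' (σ i)))
    (g : P'), (α (w i) = w' (σ i) ∧ β (a i) = g * a' (σ i) * g⁻¹) ∨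
      (α (w i) = (w' (σ i))⁻¹ ∧ β (a i) = g * (a' (σ i))⁻¹ * g⁻¹)) →
  Nonempty (G ≃* G')

/-- MP: the presentation with the substituted words as a star of groups -/
def T_MP : Prop := ∀ (I Y : Type) (X : I → Type) (w : ∀ i, FreeGroup (X i))
  (R : Set (FreeGroup (I ⊕ Y))),
  ∃ (iF : ∀ i, FreeGroup (X i) →* PresentedGroup (subW w '' R))
    (iP : PresentedGroup R →* PresentedGroup (subW w '' R)),
    IsSt (fun i => zpowersHom (PresentedGroup R) (PresentedGroup.of (Sum.inl i)))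
      (fun i => zpowersHom (FreeGroup (X i)) (w i)) iP iF

/-- WU: uniqueness of the free factor of a word -/
def T_WU : Prop := ∀ (X X' N N' : Type) [Finite X] [Finite X'] [Nontrivial X] [Nontrivial X']
  (w : FreeGroup X) (w' : FreeGroup X') (e : ℤ) (α : FreeGroup (X ⊕ N) ≃* FreeGroup (X' ⊕ N')),
  Root w → Wh w → Root w' → Wh w' → (e = 1 ∨ e = -1) → α (fl w) = fl w' ^ e →
  ∃ β : FreeGroup X ≃* FreeGroup X', β w = w' ^ e

/-- MV: normal form of a star with several words -/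
def T_MV : Prop := ∀ (I : Type) (X : I → Type) (P G : Type) [Nonempty I] [∀ i, Finite (X i)]
  [Group P] [Group G] (w : ∀ i, FreeGroup (X i)) (a : I → P) (iF : ∀ i, FreeGroup (X i) →* G)
  (iP : P →* G), IsSt (fun i => zpowersHom P (a i)) (fun i => zpowersHom (FreeGroup (X i)) (w i))
    iP iF → (∀ i, Root (w i) ∧ ¬ Prim (w i)) → KG P → (∀ i, Inf (a i)) →
  ∃ (X1 Z : I → Type) (_ : ∀ i, Finite (X1 i)) (_ : ∀ i, Finite (Z i))
    (α : ∀ i, FreeGroup (X i) ≃* FreeGroup (X1 i ⊕ Z i)) (u : ∀ i, FreeGroup (X1 i))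
    (iF1 : ∀ i, FreeGroup (X1 i ⊕ Z i) →* G), (∀ i, α i (w i) = fl (u i)) ∧
    (∀ i, Nontrivial (X1 i)) ∧ (∀ i, Wh (u i)) ∧ Hy u a iF1 iP

/-- MQ: stable equivalence in the normal form -/
def T_MQ : Prop := ∀ (X X1 Z X' X1' Z' : Type) [Finite X1] [Finite Z] [Finite X1'] [Finite Z']
  [Nontrivial X1] [Nontrivial X1'] (w : FreeGroup X) (w' : FreeGroup X') (u : FreeGroup X1)
  (u' : FreeGroup X1') (α : FreeGroup X ≃* FreeGroup (X1 ⊕ Z))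
  (α' : FreeGroup X' ≃* FreeGroup (X1' ⊕ Z')) (e : ℤ), Root u → Wh u → Root u' → Wh u' →
  α w = fl u → α' w' = fl u' → (e = 1 ∨ e = -1) →
  (StEq w (w' ^ e) ↔ ∃ β : FreeGroup X1 ≃* FreeGroup X1', β u = u' ^ e)

/-- MW: the theorem on several words -/
def T_MW : Prop := ∀ (I I' Y Y' : Type) [Finite I] [Finite I'] [Nonempty I] [Nonempty I']
  (X : I → Type) (X' : I' → Type) [∀ i, Finite (X i)] [∀ i, Finite (X' i)]
  (w : ∀ i, FreeGroup (X i)) (w' : ∀ i, FreeGroup (X' i)) (R : Set (FreeGroup (I ⊕ Y)))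
  (R' : Set (FreeGroup (I' ⊕ Y'))), (∀ i, Root (w i) ∧ ¬ Prim (w i)) →
  (∀ i, Root (w' i) ∧ ¬ Prim (w' i)) → KG (PresentedGroup R) → KG (PresentedGroup R') →
  (∀ i, Inf (PresentedGroup.of (Sum.inl i) : PresentedGroup R)) →
  (∀ i, Inf (PresentedGroup.of (Sum.inl i) : PresentedGroup R')) →
  (Nonempty (PresentedGroup (subW w '' R) ≃* PresentedGroup (subW w' '' R')) ↔
    Nonempty ((Σ i, X i) ≃ (Σ i, X' i)) ∧
    ∃ (σ : I ≃ I') (β : PresentedGroup R ≃* PresentedGroup R'), ∀ i, ∃ g : PresentedGroup R',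
      (StEq (w i) (w' (σ i)) ∧ β (PresentedGroup.of (Sum.inl i)) =
        g * PresentedGroup.of (Sum.inl (σ i)) * g⁻¹) ∨
      (StEq (w i) (w' (σ i))⁻¹ ∧ β (PresentedGroup.of (Sum.inl i)) =
        g * (PresentedGroup.of (Sum.inl (σ i)))⁻¹ * g⁻¹))

/-! ## 3. The groups `KP k p q` -/

/-- KH: homomorphisms -/
def T_KH : Prop := ∀ (k : ℕ) (p q : ℤ),
  ((kg true : KP k p q) ^ k * kg false ^ p * (kg true ^ k)⁻¹ = kg false ^ q) ∧
  (∀ (H : Type) [Group H] (g h : H), g ^ k * h ^ p * (g ^ k)⁻¹ = h ^ q →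
    ∃ f : KP k p q →* H, f (kg true) = g ∧ f (kg false) = h) ∧
  (∀ (H : Type) [Group H] (f f' : KP k p q →* H), f (kg true) = f' (kg true) →
    f (kg false) = f' (kg false) → f = f')

/-- KB: `KP k p q` is an amalgamated product of `ℤ` and a Baumslag-Solitar group -/
def T_KB : Prop := ∀ (k : ℕ) (p q : ℤ), ∃ (iX : Multiplicative ℤ →* KP k p q)
  (iB : BS p q →* KP k p q), iX (Multiplicative.ofAdd 1) = kg true ∧
  iB (bsA p q) = kg false ∧ IsPO (zpowersHom (Multiplicative ℤ) (Multiplicative.ofAdd (k : ℤ)))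
    (zpowersHom (BS p q) (bsT p q)) iX iB

/-- KS: `KP k p q` is in the class `KS` -/
def T_KS : Prop := ∀ (k : ℕ) (p q : ℤ), 0 < k → p ≠ 0 → q ≠ 0 →
  KS (KP k p q) ∧ ∀ i, Inf (kg i : KP k p q)

/-- KT: the commutator subgroup of `KP k p q` -/
def T_KT : Prop := ∀ (k : ℕ) (p q : ℤ),
  (∀ g : KP k p q, ∃ i j : ℤ, g * (kg true ^ i * kg false ^ j)⁻¹ ∈ commutator (KP k p q)) ∧
  (∀ i j : ℤ, (kg true : KP k p q) ^ i * kg false ^ j ∈ commutator (KP k p q) ↔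
    i = 0 ∧ (p - q) ∣ j)

/-- KJ: characters with non-principal crossed homomorphisms -/
def T_KJ : Prop := ∀ (k : ℕ) (p q : ℤ) (ρ : KP k p q →* ℂˣ), 0 < k → p ≠ 0 → q ≠ 0 → ρ ≠ 1 →
  (Jmp ρ ↔
    (ρ (kg false) = 1 ∧ ((ρ (kg true) : ℂˣ) : ℂ) ^ k * p = q) ∨
    (ρ (kg false) ≠ 1 ∧ (ρ (kg false) ^ p = 1 ∨ (ρ (kg true) ^ k = 1 ∧ ρ (kg true) ≠ 1))))

/-- KZ: isomorphisms and commutator subgroups -/
def T_KZ : Prop := ∀ (k : ℕ) (p q : ℤ) (k' : ℕ) (p' q' : ℤ) (β : KP k p q ≃* KP k' p' q'),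
  p ≠ q → p' ≠ q' ∧ ((p - q) ∣ (p' - q')) ∧ ∃ ε : ℤ, (ε = 1 ∨ ε = -1) ∧
  (∃ j : ℤ, β (kg true) * (kg true ^ ε * kg false ^ j)⁻¹ ∈ commutator (KP k' p' q')) ∧
  ∃ i : ℤ, β (kg false) * (kg false ^ i)⁻¹ ∈ commutator (KP k' p' q')

/-- KX: classification of the groups `KP k p q`, `p ≠ q` -/
def T_KX : Prop := ∀ (k : ℕ) (p q : ℤ) (k' : ℕ) (p' q' : ℤ) (β : KP k p q ≃* KP k' p' q'),
  0 < k → p ≠ 0 → q ≠ 0 → 0 < k' → p' ≠ 0 → q' ≠ 0 → p ≠ q →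
  p' ≠ q' ∧ k = k' ∧ ∃ ε : ℤ,
  (∃ j : ℤ, β (kg true) * (kg true ^ ε * kg false ^ j)⁻¹ ∈ commutator (KP k' p' q')) ∧
  (∃ i : ℤ, β (kg false) * (kg false ^ i)⁻¹ ∈ commutator (KP k' p' q')) ∧
  ((ε = 1 ∧ pm p q p' q') ∨ (ε = -1 ∧ pm q p p' q'))

/-- KN: numbers of characters of `KP k p p` -/
def T_KN : Prop := ∀ (k : ℕ) (p : ℤ), 0 < k → p ≠ 0 →
  (∀ N : ℕ, 0 < N → k ∣ N → p.natAbs ∣ N →
    Nat.card {ρ : KP k p p →* ℂˣ // ρ ^ N = 1 ∧ (ρ = 1 ∨ ¬ Jmp ρ)} =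
      (N - k + 1) * (N - p.natAbs + 1)) ∧
  Nat.card {ρ : KP k p p →* ℂˣ // ρ (kg true) = 1 ∧ (ρ = 1 ∨ Jmp ρ)} = p.natAbs ∧
  Nat.card {ρ : KP k p p →* ℂˣ // ρ (kg false) = 1 ∧ (ρ = 1 ∨ Jmp ρ)} = k

/-- KY: classification of the groups `KP k p p`, with marked generators -/
def T_KY : Prop := ∀ (k : ℕ) (p : ℤ) (k' : ℕ) (p' : ℤ) (β : KP k p p ≃* KP k' p' p'),
  0 < k → p ≠ 0 → 0 < k' → p' ≠ 0 →
  ((k = k' ∧ |p| = |p'|) ∨ ((k : ℤ) = |p'| ∧ |p| = k')) ∧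
  ∀ (i j : Bool) (g : KP k' p' p') (e : ℤ), (e = 1 ∨ e = -1) → β (kg i) = g * kg j ^ e * g⁻¹ →
    (i = j → k = k' ∧ |p| = |p'|) ∧ (i ≠ j → (k : ℤ) = |p'| ∧ |p| = k')

/-- HK: the classification of the groups `KP k p q` with marked generators -/
def T_HK : Prop := ∀ (k : ℕ) (p q : ℤ) (k' : ℕ) (p' q' : ℤ) (N N' : Bool → Prop)
  (σ : {i // N i} ≃ {i // N' i}) (e : Bool → ℤ) (β : KP k p q ≃* KP k' p' q'),
  0 < k → p ≠ 0 → q ≠ 0 → 0 < k' → p' ≠ 0 → q' ≠ 0 → (∀ i, e i = 1 ∨ e i = -1) →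
  (∀ i : {i // N i}, ∃ g : KP k' p' q', β (kg i) = g * kg (σ i) ^ e i * g⁻¹) →
  ∃ (τ : Bool ≃ Bool) (e' : Bool → ℤ), (∀ i, e' i = 1 ∨ e' i = -1) ∧
    (∀ i : {i // N i}, τ i = σ i ∧ e' i = e i) ∧ (∀ i, N i ↔ N' (τ i)) ∧
    Ex τ e' k p q k' p' q'

/-! ## 4. The relators `v w^p v⁻¹ w^(-q)` -/

/-- RT: roots in free groups -/
def T_RT : Prop := ∀ (Y : Type) (v : FreeGroup Y), v ≠ 1 →
  ∃ (u : FreeGroup Y) (k : ℕ), 0 < k ∧ Root u ∧ u ^ k = v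

/-- LN: normal form of a word -/
def T_LN : Prop := ∀ (Y : Type) [Finite Y] (v : FreeGroup Y), v ≠ 1 →
  ∃ (X Z : Type) (_ : Finite X) (_ : Finite Z) (α : FreeGroup Y ≃* FreeGroup (X ⊕ Z))
    (u : FreeGroup X) (k : ℕ), 0 < k ∧ α v = fl u ^ k ∧ Root u ∧
    ((Wh u ∧ Nontrivial X) ∨ Subsingleton X)

/-- LO: free groups of rank one -/
def T_LO : Prop := ∀ (X X' : Type) [Subsingleton X] [Subsingleton X'] (w : FreeGroup X)
  (w' : FreeGroup X') (e : ℤ), Root w → Root w' → (e = 1 ∨ e = -1) →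
  ∃ α : FreeGroup X ≃* FreeGroup X', α w = w' ^ e

/-- NB: normal form of the relator -/
def T_NB : Prop := ∀ (X Y : Type) [Finite X] [Finite Y] (v : FreeGroup Y) (w : FreeGroup X)
  (p q : ℤ), v ≠ 1 → w ≠ 1 → ∃ (k j : ℕ) (X1 Z1 : Bool → Type) (_ : ∀ i, Finite (X1 i))
  (_ : ∀ i, Finite (Z1 i)) (u : ∀ i, FreeGroup (X1 i))
  (θ : FreeGroup (X ⊕ Y) ≃* FreeGroup ((Σ i, X1 i ⊕ Z1 i) ⊕ Empty)), 0 < k ∧ 0 < j ∧
  (∀ i, Root (u i)) ∧ (∀ i, (Wh (u i) ∧ Nontrivial (X1 i)) ∨ Subsingleton (X1 i)) ∧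
  θ (rl v w p q) = subW (X := fun i => X1 i ⊕ Z1 i) (fun i => fl (u i)) (relK k (j * p) (j * q))

/-- TG: isomorphisms of free groups from isomorphisms of the factors -/
def T_TG : Prop := ∀ (I I' : Type) (X Z : I → Type) (X' Z' : I' → Type) (τ : I ≃ I')
  (α : ∀ i, FreeGroup (X i) ≃* FreeGroup (X' (τ i))) (_ : (Σ i, Z i) ≃ (Σ i, Z' i)),
  ∃ θ : FreeGroup ((Σ i, X i ⊕ Z i) ⊕ Empty) ≃* FreeGroup ((Σ i, X' i ⊕ Z' i) ⊕ Empty),
    ∀ (i : I) (x : FreeGroup (X i)),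
      θ (FreeGroup.map (fun z : X i ⊕ Z i =>
        (Sum.inl ⟨i, z⟩ : (Σ i, X i ⊕ Z i) ⊕ Empty)) (fl x)) =
      FreeGroup.map (fun z : X' (τ i) ⊕ Z' (τ i) =>
        (Sum.inl ⟨τ i, z⟩ : (Σ i, X' i ⊕ Z' i) ⊕ Empty)) (fl (α i x))

/-- HE: equivalence of the relators -/
def T_HE : Prop := ∀ (X Z X' Z' : Bool → Type) (w : ∀ i, FreeGroup (X i))
  (w' : ∀ i, FreeGroup (X' i)) (k : ℕ) (p q : ℤ) (k' : ℕ) (p' q' : ℤ) (τ : Bool ≃ Bool)
  (e : Bool → ℤ), Nonempty ((Σ i, Z i) ≃ (Σ i, Z' i)) → (∀ i, e i = 1 ∨ e i = -1) →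
  (∀ i, ∃ α : FreeGroup (X i) ≃* FreeGroup (X' (τ i)), α (w i) = w' (τ i) ^ e i) →
  Ex τ e k p q k' p' q' →
  ∃ θ : FreeGroup ((Σ i, X i ⊕ Z i) ⊕ Empty) ≃* FreeGroup ((Σ i, X' i ⊕ Z' i) ⊕ Empty),
    θ (subW (X := fun i => X i ⊕ Z i) (fun i => fl (w i)) (relK k p q)) =
      subW (X := fun i => X' i ⊕ Z' i) (fun i => fl (w' i)) (relK k' p' q') ∨
    θ (subW (X := fun i => X i ⊕ Z i) (fun i => fl (w i)) (relK k p q)) =
      (subW (X := fun i => X' i ⊕ Z' i) (fun i => fl (w' i)) (relK k' p' q'))⁻¹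

/-- HO: the theorem for relators in normal form -/
def T_HO : Prop := ∀ (X Z X' Z' : Bool → Type) (_ : ∀ i, Finite (X i)) (_ : ∀ i, Finite (Z i))
  (_ : ∀ i, Finite (X' i)) (_ : ∀ i, Finite (Z' i)) (w : ∀ i, FreeGroup (X i))
  (w' : ∀ i, FreeGroup (X' i)) (k : ℕ) (p q : ℤ) (k' : ℕ) (p' q' : ℤ), 0 < k → p ≠ 0 →
  q ≠ 0 → 0 < k' → p' ≠ 0 → q' ≠ 0 → (∀ i, Root (w i)) →
  (∀ i, (Wh (w i) ∧ Nontrivial (X i)) ∨ Subsingleton (X i)) → (∀ i, Root (w' i)) →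
  (∀ i, (Wh (w' i) ∧ Nontrivial (X' i)) ∨ Subsingleton (X' i)) →
  Nonempty (OR (subW (X := fun i => X i ⊕ Z i) (fun i => fl (w i)) (relK k p q)) ≃*
    OR (subW (X := fun i => X' i ⊕ Z' i) (fun i => fl (w' i)) (relK k' p' q'))) →
  ∃ θ : FreeGroup ((Σ i, X i ⊕ Z i) ⊕ Empty) ≃* FreeGroup ((Σ i, X' i ⊕ Z' i) ⊕ Empty),
    θ (subW (X := fun i => X i ⊕ Z i) (fun i => fl (w i)) (relK k p q)) =
      subW (X := fun i => X' i ⊕ Z' i) (fun i => fl (w' i)) (relK k' p' q') ∨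
    θ (subW (X := fun i => X i ⊕ Z i) (fun i => fl (w i)) (relK k p q)) =
      (subW (X := fun i => X' i ⊕ Z' i) (fun i => fl (w' i)) (relK k' p' q'))⁻¹

/-- HF: the theorem on the relators `v w^p v⁻¹ w^(-q)` -/
def T_HF : Prop := ∀ (X Y X' Y' : Type) [Finite X] [Finite Y] [Finite X'] [Finite Y']
  (v : FreeGroup Y) (w : FreeGroup X) (v' : FreeGroup Y') (w' : FreeGroup X') (p q p' q' : ℤ),
  v ≠ 1 → w ≠ 1 → v' ≠ 1 → w' ≠ 1 → p ≠ 0 → q ≠ 0 → p' ≠ 0 → q' ≠ 0 →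
  (Nonempty (OR (rl v w p q) ≃* OR (rl v' w' p' q')) ↔
    ∃ θ : FreeGroup (X ⊕ Y) ≃* FreeGroup (X' ⊕ Y'),
      θ (rl v w p q) = rl v' w' p' q' ∨ θ (rl v w p q) = (rl v' w' p' q')⁻¹)

end ORg
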