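import Pool.Agent.H5.OR.Targets3

/-!
# Isomorphism problem for one-relator groups (MP_e1fd52_al): the relators `v^m w^(-n)`
(definitions and targets, board ort_modules)
-/

set_option autoImplicit false

open scoped Classical

namespace ORg

/-- `x^m a^(-n)` with `x` the letter `true` and `a` the letter `false` -/
def relT (m n : ℤ) : FreeGroup (Bool ⊕ Empty) :=
  FreeGroup.of (Sum.inl true) ^ m * (FreeGroup.of (Sum.inl false) ^ n)⁻¹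

/-- the group `⟨x, a | x^m = a^n⟩` -/
abbrev TP (m n : ℤ) : Type := OR (relT m n)

/-- the generators `x` (for `true`) and `a` (for `false`) -/
def tg {m n : ℤ} (i : Bool) : TP m n := PresentedGroup.of (Sum.inl i)

/-- the relator `v^m w^(-n)`, `w` a word over `X`, `v` a word over `Y` -/
def rt {X Y : Type} (v : FreeGroup Y) (w : FreeGroup X) (m n : ℤ) : FreeGroup (X ⊕ Y) :=
  FreeGroup.map Sum.inr v ^ m * (FreeGroup.map Sum.inl w ^ n)⁻¹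

/-- the relation between the exponents of two isomorphic groups; `τ` is the permutation of the two
words and `e` are the signs -/
def Et (τ : Bool ≃ Bool) (e : Bool → ℤ) (m n m' n' : ℤ) : Prop :=
  (τ = Equiv.refl Bool ∧ |m| = |m'| ∧ |n| = |n'| ∧ e true * m * n' = e false * n * m') ∨
  (τ = Equiv.swap true false ∧ |m| = |n'| ∧ |n| = |m'| ∧ e true * m * m' = e false * n * n')

/-! ## 1. The groups `TP m n` -/

/-- QH: homomorphisms, and the element `x^m` -/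
def T_QH : Prop := ∀ (m n : ℤ), ((tg true : TP m n) ^ m = tg false ^ n) ∧
  (∀ (H : Type) [Group H] (g h : H), g ^ m = h ^ n →
    ∃ f : TP m n →* H, f (tg true) = g ∧ f (tg false) = h) ∧
  (∀ (H : Type) [Group H] (f f' : TP m n →* H), f (tg true) = f' (tg true) →
    f (tg false) = f' (tg false) → f = f')

/-- QS: `TP m n` is in the class `KS` -/
def T_QS : Prop := ∀ (m n : ℤ), 2 ≤ |m| → 2 ≤ |n| → KS (TP m n) ∧ ∀ i, Inf (tg i : TP m n)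

/-- QJ: characters with non-principal crossed homomorphisms -/
def T_QJ : Prop := ∀ (m n : ℤ) (ρ : TP m n →* ℂˣ), m ≠ 0 → n ≠ 0 → ρ ≠ 1 →
  (Jmp ρ ↔ ρ (tg true) ^ m = 1 ∧ ρ (tg true) ≠ 1 ∧ ρ (tg false) ^ n = 1 ∧ ρ (tg false) ≠ 1)

/-- QN: numbers of characters of `TP m n` -/
def T_QN : Prop := ∀ (m n : ℤ), 2 ≤ |m| → 2 ≤ |n| →
  Nat.card {ρ : TP m n →* ℂˣ // ρ ≠ 1 ∧ Jmp ρ} = (m.natAbs - 1) * (n.natAbs - 1) ∧
  (∀ d : ℕ, (∀ ρ : TP m n →* ℂˣ, ρ ≠ 1 → Jmp ρ → ρ ^ d = 1) ↔ Nat.lcm m.natAbs n.natAbs ∣ d) ∧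
  Nat.card {ρ : TP m n →* ℂˣ // ρ ^ Nat.lcm m.natAbs n.natAbs = 1} = m.natAbs * n.natAbs ∧
  Nat.card {ρ : TP m n →* ℂˣ // ρ (tg true) = 1} = n.natAbs ∧
  Nat.card {ρ : TP m n →* ℂˣ // ρ (tg false) = 1} = m.natAbs

/-- QC: classification of the groups `TP m n`, with marked generators -/
def T_QC : Prop := ∀ (m n m' n' : ℤ) (β : TP m n ≃* TP m' n'), 2 ≤ |m| → 2 ≤ |n| → 2 ≤ |m'| →
  2 ≤ |n'| → ((|m| = |m'| ∧ |n| = |n'|) ∨ (|m| = |n'| ∧ |n| = |m'|)) ∧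
  ∀ (i j : Bool) (g : TP m' n') (e : ℤ), (e = 1 ∨ e = -1) → β (tg i) = g * tg j ^ e * g⁻¹ →
    (i = j → |m| = |m'| ∧ |n| = |n'|) ∧ (i ≠ j → |m| = |n'| ∧ |n| = |m'|)

/-- QK: the classification with several marked generators -/
def T_QK : Prop := ∀ (m n m' n' : ℤ) (N N' : Bool → Prop) (σ : {i // N i} ≃ {i // N' i})
  (e : Bool → ℤ) (β : TP m n ≃* TP m' n'), 2 ≤ |m| → 2 ≤ |n| → 2 ≤ |m'| → 2 ≤ |n'| →
  (∀ i, e i = 1 ∨ e i = -1) →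
  (∀ i : {i // N i}, ∃ g : TP m' n', β (tg i) = g * tg (σ i) ^ e i * g⁻¹) →
  ∃ (τ : Bool ≃ Bool) (e' : Bool → ℤ), (∀ i, e' i = 1 ∨ e' i = -1) ∧
    (∀ i : {i // N i}, τ i = σ i ∧ e' i = e i) ∧ (∀ i, N i ↔ N' (τ i)) ∧ Et τ e' m n m' n'

/-! ## 2. The relators `v^m w^(-n)` -/

/-- QB: normal form of the relator -/
def T_QB : Prop := ∀ (X Y : Type) [Finite X] [Finite Y] (v : FreeGroup Y) (w : FreeGroup X)
  (m n : ℤ), v ≠ 1 → w ≠ 1 → ∃ (k j : ℕ) (X1 Z1 : Bool → Type) (_ : ∀ i, Finite (X1 i))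
  (_ : ∀ i, Finite (Z1 i)) (u : ∀ i, FreeGroup (X1 i))
  (θ : FreeGroup (X ⊕ Y) ≃* FreeGroup ((Σ i, X1 i ⊕ Z1 i) ⊕ Empty)), 0 < k ∧ 0 < j ∧
  (∀ i, Root (u i)) ∧ (∀ i, (Wh (u i) ∧ Nontrivial (X1 i)) ∨ Subsingleton (X1 i)) ∧
  θ (rt v w m n) = subW (X := fun i => X1 i ⊕ Z1 i) (fun i => fl (u i)) (relT (k * m) (j * n))

/-- QE: equivalence of the relators -/
def T_QE : Prop := ∀ (X Z X' Z' : Bool → Type) (w : ∀ i, FreeGroup (X i))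
  (w' : ∀ i, FreeGroup (X' i)) (m n m' n' : ℤ) (τ : Bool ≃ Bool) (e : Bool → ℤ), m ≠ 0 → n ≠ 0 →
  Nonempty ((Σ i, Z i) ≃ (Σ i, Z' i)) → (∀ i, e i = 1 ∨ e i = -1) →
  (∀ i, ∃ α : FreeGroup (X i) ≃* FreeGroup (X' (τ i)), α (w i) = w' (τ i) ^ e i) →
  Et τ e m n m' n' →
  ∃ θ : FreeGroup ((Σ i, X i ⊕ Z i) ⊕ Empty) ≃* FreeGroup ((Σ i, X' i ⊕ Z' i) ⊕ Empty),
    θ (subW (X := fun i => X i ⊕ Z i) (fun i => fl (w i)) (relT m n)) =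
      subW (X := fun i => X' i ⊕ Z' i) (fun i => fl (w' i)) (relT m' n') ∨
    θ (subW (X := fun i => X i ⊕ Z i) (fun i => fl (w i)) (relT m n)) =
      (subW (X := fun i => X' i ⊕ Z' i) (fun i => fl (w' i)) (relT m' n'))⁻¹

/-- QO: the theorem for relators in normal form -/
def T_QO : Prop := ∀ (X Z X' Z' : Bool → Type) (_ : ∀ i, Finite (X i)) (_ : ∀ i, Finite (Z i))
  (_ : ∀ i, Finite (X' i)) (_ : ∀ i, Finite (Z' i)) (w : ∀ i, FreeGroup (X i))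
  (w' : ∀ i, FreeGroup (X' i)) (m n m' n' : ℤ), 2 ≤ |m| → 2 ≤ |n| → 2 ≤ |m'| → 2 ≤ |n'| →
  (∀ i, Root (w i)) →
  (∀ i, (Wh (w i) ∧ Nontrivial (X i)) ∨ Subsingleton (X i)) → (∀ i, Root (w' i)) →
  (∀ i, (Wh (w' i) ∧ Nontrivial (X' i)) ∨ Subsingleton (X' i)) →
  Nonempty (OR (subW (X := fun i => X i ⊕ Z i) (fun i => fl (w i)) (relT m n)) ≃*
    OR (subW (X := fun i => X' i ⊕ Z' i) (fun i => fl (w' i)) (relT m' n'))) →
  ∃ θ : FreeGroup ((Σ i, X i ⊕ Z i) ⊕ Empty) ≃* FreeGroup ((Σ i, X' i ⊕ Z' i) ⊕ Empty),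
    θ (subW (X := fun i => X i ⊕ Z i) (fun i => fl (w i)) (relT m n)) =
      subW (X := fun i => X' i ⊕ Z' i) (fun i => fl (w' i)) (relT m' n') ∨
    θ (subW (X := fun i => X i ⊕ Z i) (fun i => fl (w i)) (relT m n)) =
      (subW (X := fun i => X' i ⊕ Z' i) (fun i => fl (w' i)) (relT m' n'))⁻¹

/-- QF: the theorem on the relators `v^m w^(-n)` -/
def T_QF : Prop := ∀ (X Y X' Y' : Type) [Finite X] [Finite Y] [Finite X'] [Finite Y']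
  (v : FreeGroup Y) (w : FreeGroup X) (v' : FreeGroup Y') (w' : FreeGroup X') (m n m' n' : ℤ),
  v ≠ 1 → w ≠ 1 → v' ≠ 1 → w' ≠ 1 → 2 ≤ |m| → 2 ≤ |n| → 2 ≤ |m'| → 2 ≤ |n'| →
  (Nonempty (OR (rt v w m n) ≃* OR (rt v' w' m' n')) ↔
    ∃ θ : FreeGroup (X ⊕ Y) ≃* FreeGroup (X' ⊕ Y'),
      θ (rt v w m n) = rt v' w' m' n' ∨ θ (rt v w m n) = (rt v' w' m' n')⁻¹)

end ORg
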