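import Pool.Agent.H1.ORS.KN
import Pool.Agent.H1.ORS.M2
import Pool.Agent.H1.ORS.M5
import Pool.Agent.H13.ORS.MI
import Pool.Agent.H16.ORS.HK
import Pool.Agent.H16.ORS.HO
import Pool.Agent.H16.ORS.KX
import Pool.Agent.H16.ORS.KY
import Pool.Agent.H17.ORS.M1
import Pool.Agent.H17.ORS.MQ
import Pool.Agent.H17.ORS.MW
import Pool.Agent.H19.ORS.KS
import Pool.Agent.H19.ORS.M6
import Pool.Agent.H19.ORS.MP
import Pool.Agent.H19.ORS.QH
import Pool.Agent.H19.ORS.QS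
import Pool.Agent.H20.ORS.SF
import Pool.Agent.H33.ORS.M7
import Pool.Agent.H39.OR.M9
import Pool.Agent.H42.OR.SGI
import Pool.Agent.H49.ORS.M4
import Pool.Agent.H49.ORS.M8
import Pool.Agent.H5.OR.Targets4
import Pool.Agent.H5.ORS.HF
import Pool.Agent.H5.ORS.M3
import Pool.Agent.H53.ORS.KT
import Pool.Agent.H53.ORS.SK
import Pool.Agent.H53.ORS.SM
import Pool.Agent.H60.ORS.KB
import Pool.Agent.H60.ORS.LN
import Pool.Agent.H61.ORS.MV
import Pool.Agent.H63.OR.MX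
import Pool.Agent.H63.OR.WU
import Pool.Agent.H67.ORS.SE
import Pool.Agent.H70.OR.KJ
import Pool.Agent.H86.ORS.HE
import Pool.Agent.H86.ORS.LO
import Pool.Agent.H89.OR.SV
import Pool.Agent.H97.ORS.KH
import Pool.Agent.H97.ORS.TG
import Pool.Agent.H99.ORS.NB
import Pool.Agent.H99.ORS.RT

/-!
# Isomorphism problem for one-relator groups (MP_e1fd52_al): the rows of ors_modules put together
-/

set_option autoImplicit false

namespace ORg.All3

open ORg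

theorem MP : T_MP := _root_.Pool.Agent.H19.ORS.pf_MP

theorem SE : T_SE := _root_.Pool.Agent.H67.ORS.pf_SE

theorem MV : T_MV := _root_.Pool.Agent.H61.ORS.pf_MV SE

theorem SG : T_SG := _root_.Pool.Agent.H42.OR.pf_SG

theorem SI : T_SI := _root_.Pool.Agent.H42.OR.pf_SI

theorem SF : T_SF := _root_.Pool.Agent.H20.ORS.pf_SF

theorem SV : T_SV := _root_.Pool.Agent.H89.OR.SV.pf_SV

theorem SM : T_SM := _root_.Pool.Agent.H53.ORS.pf_SM SG SI SF SV

theorem SK : T_SK := _root_.Pool.Agent.H53.ORS.pf_SK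

theorem M1 : T_M1 := _root_.Pool.Agent.H17.ORS.pf_M1 SM SK

theorem M2 : T_M2 := _root_.Pool.Agent.H1.ORS.M2f.pf_M2

theorem M3 : T_M3 := _root_.Pool.Agent.H5.ORS.M3f.pf_M3

theorem M4 : T_M4 := _root_.Pool.Agent.H49.ORS.pf_M4 M2

theorem M5 : T_M5 := _root_.Pool.Agent.H1.ORS.M5f.pf_M5 M4

theorem M6 : T_M6 := _root_.Pool.Agent.H19.ORS.pf_M6

theorem M7 : T_M7 := _root_.Pool.Agent.H33.ORS.pf_M7 M2 M3 M5 M6

theorem M8 : T_M8 := _root_.Pool.Agent.H49.ORS.pf_M8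

theorem M9 : T_M9 := _root_.Pool.Agent.H39.OR.pf_M9 M1 M7 M8

theorem MI : T_MI := _root_.Pool.Agent.H13.ORS.pf_MI

theorem WU : T_WU := _root_.Pool.Agent.H63.OR.WU.pf_WU

theorem MQ : T_MQ := _root_.Pool.Agent.H17.ORS.pf_MQ WU

theorem MW : T_MW := _root_.Pool.Agent.H17.ORS.pf_MW MP MV M9 MI MQ

theorem TG : T_TG := _root_.Pool.Agent.H97.ORS.pf_TG

theorem MX : T_MX := _root_.Pool.Agent.H63.OR.MX.pf_MX MW MQ TG

theorem RT : T_RT := _root_.Pool.Agent.H99.ORS.pf_RT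

theorem LN : T_LN := _root_.Pool.Agent.H60.ORS.pf_LN RT

theorem NB : T_NB := _root_.Pool.Agent.H99.ORS.pf_NB LN

theorem KH : T_KH := _root_.Pool.Agent.H97.ORS.pf_KH

theorem KB : T_KB := _root_.Pool.Agent.H60.ORS.pf_KB KH

theorem KS : T_KS := _root_.Pool.Agent.H19.ORS.pf_KS KH KB

theorem KT : T_KT := _root_.Pool.Agent.H53.ORS.pf_KT KH

theorem KZ : T_KZ := _root_.Pool.Agent.H97.ORS.pf_KZ KH KT

theorem KJ : T_KJ := _root_.Pool.Agent.H70.OR.KJ.pf_KJ KH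

theorem KX : T_KX := _root_.Pool.Agent.H16.ORS.pf_KX KH KT KJ KZ

theorem KN : T_KN := _root_.Pool.Agent.H1.ORS.KNf.pf_KN KH KJ

theorem KY : T_KY := _root_.Pool.Agent.H16.ORS.pf_KY KN

theorem HK : T_HK := _root_.Pool.Agent.H16.ORS.pf_HK KT KZ KX KY

theorem LO : T_LO := _root_.Pool.Agent.H86.ORS.pf_LO

theorem HE : T_HE := _root_.Pool.Agent.H86.ORS.pf_HE TG

theorem HO : T_HO := _root_.Pool.Agent.H16.ORS.pf_HO MP M9 KS HK LO HE

theorem HF : T_HF := _root_.Pool.Agent.H5.ORS.pf_HF NB HO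

theorem QH : T_QH := _root_.Pool.Agent.H19.ORS.pf_QH

theorem QS : T_QS := _root_.Pool.Agent.H19.ORS.pf_QS QH

end ORg.All3
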