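import Pool.Agent.H5.OR.All3
import Pool.Agent.H4.ORS.QO
import Pool.Agent.H45.ORS.QB
import Pool.Agent.H45.ORS.QK
import Pool.Agent.H85.ORS.QE
import Pool.Agent.H19.ORS.QF
import Pool.Agent.H27.ORS.QC
import Pool.Agent.H7.ORS.QN
import Pool.Agent.H11.ORS.QJ

/-!
# Isomorphism problem for one-relator groups (MP_e1fd52_al): the relators `v^m w^(-n)`
-/

set_option autoImplicit false

namespace ORg.All4

open ORg

theorem QJ : T_QJ := _root_.Pool.Agent.H11.ORS.pf_QJ All3.QH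

theorem QN : T_QN := _root_.Pool.Agent.H7.ORS.pf_QN All3.QH QJ

theorem QC : T_QC := _root_.Pool.Agent.H27.ORS.pf_QC QN

theorem QK : T_QK := _root_.Pool.Agent.H45.ORS.pf_QK All3.QH All3.QS QC

theorem QE : T_QE := _root_.Pool.Agent.H85.ORS.pf_QE All3.TG

theorem QB : T_QB := _root_.Pool.Agent.H45.ORS.pf_QB All3.LN

theorem QO : T_QO :=
  _root_.Pool.Agent.H4.ORS.pf_QO All3.MP All3.M9 All3.LO All3.QS QK QE

theorem QF : T_QF := _root_.Pool.Agent.H19.ORS.pf_QF QB QO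

end ORg.All4
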