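import Mathlib

/-!
# Isomorphism problem for one-relator groups (MP_e1fd52_al): definitions
-/

set_option autoImplicit false

open scoped Classical

namespace ORg

/-! ## Trees with two colours -/

/-- a tree whose vertices have two colours, with an action of `G` by colour preserving
automorphisms; adjacent vertices have different colours -/
structure GTree (G : Type) [Group G] where
  /-- the vertices -/
  V : Type
  /-- the action on the vertices -/
  [act : MulAction G V]
  /-- the tree -/
  T : SimpleGraph V
  tree : T.IsTree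
  adj : ∀ (g : G) (u v : V), T.Adj u v → T.Adj (g • u) (g • v)
  /-- the red vertices (the others are called blue) -/
  red : V → Prop
  red_smul : ∀ (g : G) (v : V), red (g • v) ↔ red v
  red_adj : ∀ (u v : V), T.Adj u v → (red u ↔ ¬ red v)

attribute [instance] GTree.act

section Trees

variable {G : Type} [Group G]

/-- the vertices which are nearer to `a` than to `b`; for an edge `a b` the half tree of `a` -/
def GTree.hs (S : GTree G) (a b : S.V) : Set S.V := {v | S.T.dist v a < S.T.dist v b}

/-- the edge `a b` lies on the axis of `g`, and `g` translates from `a` towards `b` -/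
def GTree.Axis (S : GTree G) (g : G) (a b : S.V) : Prop :=
  S.T.Adj a b ∧ ∀ v : S.V, ∃ N : ℕ, ∀ n : ℕ, N ≤ n →
    (g ^ n) • v ∈ S.hs b a ∧ (g⁻¹ ^ n) • v ∈ S.hs a b

/-- a nontrivial element fixes at most one red vertex -/
def GTree.AC (S : GTree G) : Prop := ∀ g : G, g ≠ 1 → ∀ u v : S.V, S.red u → S.red v →
  g • u = u → g • v = v → u = v

/-- the action of `H` through a homomorphism `H → G` -/
def GTree.comap {H : Type} [Group H] (S : GTree G) (f : H →* G) : GTree H :=
  letI : MulAction H S.V := MulAction.compHom S.V f
  { V := S.V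
    T := S.T
    tree := S.tree
    adj := fun g u v h => S.adj (f g) u v h
    red := S.red
    red_smul := fun g v => S.red_smul (f g) v
    red_adj := S.red_adj }

theorem GTree.comap_smul {H : Type} [Group H] (S : GTree G) (f : H →* G) (h : H) (v : S.V) :
    (h • (show (S.comap f).V from v) : (S.comap f).V) = (f h • v : S.V) := rfl

/-- the tree of an amalgamated product: one orbit of edges, represented by `r b`, where `r` is red
with stabiliser `A` and `b` is blue with stabiliser `B` -/
structure IsAm (S : GTree G) (A B : Subgroup G) (r b : S.V) : Prop where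
  red : S.red r
  adj : S.T.Adj r b
  stA : ∀ g : G, g • r = r ↔ g ∈ A
  stB : ∀ g : G, g • b = b ↔ g ∈ B
  edge : ∀ u v : S.V, S.red u → S.T.Adj u v → ∃ g : G, u = g • r ∧ v = g • b

end Trees

/-! ## Amalgamated products -/

/-- `G`, with the homomorphisms `a : A → G` and `b : B → G`, is the pushout of `f : H → A` and
`g : H → B` -/
structure IsPO {H A B G : Type} [Group H] [Group A] [Group B] [Group G]
    (f : H →* A) (g : H →* B) (a : A →* G) (b : B →* G) : Prop where
  comm : ∀ h, a (f h) = b (g h)
  lift : ∀ (K : Type) [Group K] (u : A →* K) (v : B →* K), (∀ h, u (f h) = v (g h)) →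
    ∃ k : G →* K, (∀ x, k (a x) = u x) ∧ ∀ x, k (b x) = v x
  uniq : ∀ (K : Type) [Group K] (k l : G →* K), (∀ x, k (a x) = l (a x)) →
    (∀ x, k (b x) = l (b x)) → k = l

/-- the class of groups `P` which may be amalgamated: `P` contains an element `c` of infinite
order whose powers are commensurated by all elements of `P`, and an element `b` none of whose
nontrivial powers is a power of `c` -/
def KK (P : Type) [Group P] : Prop := ∃ c b : P,
  (∀ n : ℤ, n ≠ 0 → c ^ n ≠ 1) ∧
  (∀ g : P, ∃ m n : ℤ, m ≠ 0 ∧ n ≠ 0 ∧ g * c ^ m * g⁻¹ = c ^ n) ∧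
  (∀ m : ℤ, m ≠ 0 → b ^ m ∉ Subgroup.zpowers c)

/-- the element has infinite order -/
def Inf {P : Type} [Group P] (a : P) : Prop := ∀ n : ℤ, n ≠ 0 → a ^ n ≠ 1

/-- the amalgamated product of the free group on `X` and of `P` which identifies `w` and `a` -/
abbrev Amal {X P : Type} [Group P] (w : FreeGroup X) (a : P) : Type :=
  Monoid.Coprod (FreeGroup X) P ⧸
    Subgroup.normalClosure ({Monoid.Coprod.inl w * (Monoid.Coprod.inr a)⁻¹} :
      Set (Monoid.Coprod (FreeGroup X) P))

/-! ## Words in free groups -/

section Words

variable {X : Type}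

/-- `w` is not trivial and not a proper power -/
def Root (w : FreeGroup X) : Prop := ∀ (v : FreeGroup X) (k : ℤ), v ^ k = w → k = 1 ∨ k = -1

/-- `w` is primitive: an automorphism maps it to a free generator -/
def Prim (w : FreeGroup X) : Prop :=
  ∃ (α : FreeGroup X ≃* FreeGroup X) (i : X), α w = FreeGroup.of i

/-- the inverse letter -/
def nv (x : X × Bool) : X × Bool := (x.1, !x.2)

/-- the element of the free group given by a letter -/
def lw (x : X × Bool) : FreeGroup X := FreeGroup.mk [x]

/-- the line of `w` in the Cayley tree: `w` is the product of the letters `lt 0, …, lt (L-1)`,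
cyclically reduced; `lt` is continued periodically to all integers, `u i` is the product of the
letters `lt 0, …, lt (i-1)` (for `i ≥ 0`), `u (i + L) = w * u i` -/
structure Ln (w : FreeGroup X) (L : ℕ) (lt : ℤ → X × Bool) (u : ℤ → FreeGroup X) : Prop where
  pos : 0 < L
  zero : u 0 = 1
  step : ∀ i, u (i + 1) = u i * lw (lt i)
  per : ∀ i, u (i + L) = w * u i
  lper : ∀ i, lt (i + L) = lt i
  red : ∀ i, lt (i + 1) ≠ nv (lt i)

/-- the Whitehead graph of the cyclic word with letters `lt i` (vertices: the letters, edges:
the pairs `(lt (i-1))⁻¹`, `lt i`) is connected after the removal of any one vertex -/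
def WhG (lt : ℤ → X × Bool) : Prop := ∀ z x y : X × Bool, x ≠ z → y ≠ z →
  Relation.ReflTransGen (fun s t : X × Bool => s ≠ z ∧ t ≠ z ∧
    ∃ i, (s = nv (lt (i - 1)) ∧ t = lt i) ∨ (t = nv (lt (i - 1)) ∧ s = lt i)) x y

/-- `w` is cyclically reduced and its Whitehead graph is connected without cut vertex -/
def Wh (w : FreeGroup X) : Prop := ∃ (L : ℕ) (lt : ℤ → X × Bool) (u : ℤ → FreeGroup X),
  Ln w L lt u ∧ WhG lt

/-- the half tree of the Cayley tree beyond the edge `v, v x` -/
def Cn (v : FreeGroup X) (x : X × Bool) : Set (FreeGroup X) :=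
  {g | (v⁻¹ * g).toWord.head? = some x}

/-- the line `g * u i` has the colour `c` at both ends -/
def Col (U : FreeGroup X → Bool) (u : ℤ → FreeGroup X) (g : FreeGroup X) (c : Bool) : Prop :=
  ∃ N : ℕ, ∀ j : ℤ, (N : ℤ) ≤ |j| → U (g * u j) = c

/-- the line `g * u` passes through the edge `u i, u (i+1)` -/
def Thr (u : ℤ → FreeGroup X) (g : FreeGroup X) (i : ℤ) : Prop :=
  ∃ j, (g * u j = u i ∧ g * u (j + 1) = u (i + 1)) ∨ (g * u j = u (i + 1) ∧ g * u (j + 1) = u i)

/-- parts of a Whitehead automorphism -/
noncomputable def sg (A : Set (X × Bool)) (x z : X × Bool) : FreeGroup X := if z ∈ A then lw x else 1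

/-- parts of a Whitehead automorphism -/
noncomputable def tt (x z : X × Bool) : FreeGroup X := if z = x ∨ z = nv x then 1 else lw z

/-- `deg(x) ≤ cap(A)` in the Whitehead graph of the cyclic word `lt 0, …, lt (L-1)` -/
def Cut (L : ℕ) (lt : ℤ → X × Bool) (A : Set (X × Bool)) (x : X × Bool) : Prop :=
  ((Finset.range L).filter (fun i => lt i = x ∨ lt i = nv x)).card ≤
    ((Finset.range L).filter (fun i => ¬ (nv (lt i) ∈ A ↔ lt (i + 1) ∈ A))).card

/-- the inclusion of the first free factor -/
abbrev fl {X1 X2 : Type} : FreeGroup X1 →* FreeGroup (X1 ⊕ X2) := FreeGroup.map Sum.inl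

end Words

/-! ## The situation of the main theorem -/

/-- `G` is the amalgamated product of the free group on `X1 ⊕ X2` and of `P`, along `w = a`, where
`w` lies in the free factor on `X1`, and `S` is its tree -/
structure Su {X1 X2 P G : Type} [Group P] [Group G] (w : FreeGroup X1) (a : P)
    (iF : FreeGroup (X1 ⊕ X2) →* G) (iP : P →* G) (S : GTree G) (r b : S.V) : Prop where
  injF : Function.Injective iF
  injP : Function.Injective iP
  am : IsAm S iP.range iF.range r b
  eq : iF (fl w) = iP a
  inter : ∀ x y, iF x = iP y → ∃ k : ℤ, x = fl w ^ k ∧ y = a ^ k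
  ac : S.AC
  root : Root w
  wh : Wh w
  fin : Finite X1
  nt : Nontrivial X1
  kk : KK P

/-! ## Groups with one defining relation -/

/-- the group with the presentation with one relator `r` -/
abbrev OR {X : Type} (r : FreeGroup X) : Type := PresentedGroup ({r} : Set (FreeGroup X))

/-- `t w^p t⁻¹ = w^q`, for `w` in the free group on `X`, with one more generator `t` -/
def relA {X : Type} (w : FreeGroup X) (p q : ℤ) : FreeGroup (Option X) :=
  FreeGroup.of none * FreeGroup.map some w ^ p * (FreeGroup.of none)⁻¹ *
    (FreeGroup.map some w ^ q)⁻¹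

/-- `w^p = t^q`, for `w` in the free group on `X`, with one more generator `t` -/
def relC {X : Type} (w : FreeGroup X) (p q : ℤ) : FreeGroup (Option X) :=
  FreeGroup.map some w ^ p * (FreeGroup.of none ^ q)⁻¹

/-- the Baumslag-Solitar group `⟨a, t | t a^p t⁻¹ = a^q⟩` (`a` is the generator `some ()`) -/
abbrev BS (p q : ℤ) : Type := OR (relA (FreeGroup.of ()) p q)

/-- the group `⟨a, t | a^p = t^q⟩` (`a` is the generator `some ()`) -/
abbrev TK (p q : ℤ) : Type := OR (relC (FreeGroup.of ()) p q)

/-- the generator `a` of `BS p q` -/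
def bsA (p q : ℤ) : BS p q := PresentedGroup.of (some ())

/-- the generator `t` of `BS p q` -/
def bsT (p q : ℤ) : BS p q := PresentedGroup.of none

/-- the generator `a` of `TK p q` -/
def tkA (p q : ℤ) : TK p q := PresentedGroup.of (some ())

/-- the generator `t` of `TK p q` -/
def tkT (p q : ℤ) : TK p q := PresentedGroup.of none

end ORg
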