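import Pool.Agent.H5.OR.Targets

/-!
# Isomorphism problem for one-relator groups (MP_e1fd52_al): three families of relators,
and a larger class of groups
-/

set_option autoImplicit false

open scoped Classical

namespace ORg

/-- `w t^p w⁻¹ = t^q`, for `w` in the free group on `X`, with one more generator `t` -/
def relB {X : Type} (w : FreeGroup X) (p q : ℤ) : FreeGroup (Option X) :=
  FreeGroup.map some w * FreeGroup.of none ^ p * (FreeGroup.map some w)⁻¹ *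
    (FreeGroup.of none ^ q)⁻¹

/-- the three kinds of relators, with their exponents -/
inductive Sh : Type
  | A (p q : ℤ) : Sh
  | B (p q : ℤ) : Sh
  | C (p q : ℤ) : Sh

/-- the conditions on the exponents -/
def Sh.ok : Sh → Prop
  | .A p q => p ≠ 0 ∧ q ≠ 0
  | .B p q => p ≠ 0 ∧ q ≠ 0
  | .C p q => 2 ≤ |p| ∧ 2 ≤ |q|

/-- the relator: `t w^p t⁻¹ w^(-q)`, `w t^p w⁻¹ t^(-q)` or `w^p t^(-q)` -/
def Sh.rel {X : Type} (w : FreeGroup X) : Sh → FreeGroup (Option X)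
  | .A p q => relA w p q
  | .B p q => relB w p q
  | .C p q => relC w p q

/-- `(p', q') = ± (p, q)` -/
def pm (p q p' q' : ℤ) : Prop := (p' = p ∧ q' = q) ∨ (p' = -p ∧ q' = -q)

/-- the equivalence of the exponents; `e = true` for an isomorphism which maps `w` to `w'`,
`e = false` for an isomorphism which maps `w` to `w'⁻¹` -/
def Sh.eqv (e : Bool) : Sh → Sh → Prop
  | .A p q, .A p' q' => pm p q p' q' ∨ pm q p p' q'
  | .B p q, .B p' q' => if e then pm p q p' q' else pm q p p' q'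
  | .C p q, .C p' q' => |p'| = |p| ∧ |q'| = |q|
  | .A p q, .B p' q' => pm 1 1 p q ∧ pm 1 1 p' q'
  | .B p q, .A p' q' => pm 1 1 p q ∧ pm 1 1 p' q'
  | .B p q, .C p' q' => pm 1 (-1) p q ∧ |p'| = 2 ∧ |q'| = 2
  | .C p q, .B p' q' => pm 1 (-1) p' q' ∧ |p| = 2 ∧ |q| = 2
  | .A _ _, .C _ _ => False
  | .C _ _, .A _ _ => False

/-! ## Additional targets -/

/-- RB: the one-relator groups `w t^p w⁻¹ = t^q` as pushouts -/
def T_RB : Prop := ∀ (X : Type) (w : FreeGroup X) (p q : ℤ),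
  ∃ (iF : FreeGroup X →* OR (relB w p q)) (iP : BS p q →* OR (relB w p q)),
    IsPO (zpowersHom (FreeGroup X) w) (zpowersHom (BS p q) (bsT p q)) iF iP

/-- BW: the stable letter of `BS p q`, and the wreath product of `ℤ` and `ℤ/p` -/
def T_BW : Prop :=
  (∀ p q : ℤ, Inf (bsT p q)) ∧
  (∀ p : ℤ, p ≠ 0 → ∀ f : BS p p →* Multiplicative ℤ, f (bsA p p) = Multiplicative.ofAdd 1 →
    f (bsT p p) = 1 → ∀ g : BS p p, g * bsT p p = bsT p p * g → p ∣ Multiplicative.toAdd (f g)) ∧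
  (∀ p q : ℤ, p ≠ 0 → |p| = |q| → ∀ m n : ℤ, m ≠ 0 →
    bsA p q * bsT p q ^ m * (bsA p q)⁻¹ = bsT p q ^ n → |p| = 1) ∧
  (∀ p q : ℤ, p ≠ 0 → q ≠ 0 →
    Nonempty (BS p q ⧸ Subgroup.normalClosure {bsT p q} ≃* Multiplicative (ZMod (p - q).natAbs)))

/-- BR: the affine representation of a Baumslag-Solitar group -/
def T_BR : Prop := ∀ p q : ℤ, p ≠ 0 → q ≠ 0 → ∃ (Δ : BS p q →* ℚˣ) (c : BS p q → ℚ),
  ((Δ (bsT p q) : ℚˣ) : ℚ) = (q : ℚ) / p ∧ Δ (bsA p q) = 1 ∧ c (bsT p q) = 0 ∧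
  c (bsA p q) = 1 ∧ ∀ g h : BS p q, c (g * h) = ((Δ g : ℚˣ) : ℚ) * c h + c g

/-- BT: classification of the pairs (Baumslag-Solitar group, `t`) -/
def T_BT : Prop := ∀ p q p' q' : ℤ, p ≠ 0 → q ≠ 0 → p' ≠ 0 → q' ≠ 0 →
  ((∃ β : BS p q ≃* BS p' q', β (bsT p q) = bsT p' q') ↔ pm p q p' q') ∧
  ((∃ β : BS p q ≃* BS p' q', β (bsT p q) = (bsT p' q')⁻¹) ↔ pm q p p' q')

/-- AB: the pairs (Baumslag-Solitar group, `a`) and (Baumslag-Solitar group, `t`) -/
def T_AB : Prop := ∀ p q p' q' : ℤ, p ≠ 0 → q ≠ 0 → p' ≠ 0 → q' ≠ 0 →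
  ((∃ β : BS p q ≃* BS p' q', β (bsA p q) = bsT p' q' ∨ β (bsA p q) = (bsT p' q')⁻¹) →
    pm 1 1 p q ∧ pm 1 1 p' q') ∧
  (pm 1 1 p q → pm 1 1 p' q' → (∃ β : BS p q ≃* BS p' q', β (bsA p q) = bsT p' q') ∧
    (∃ β : BS p q ≃* BS p' q', β (bsA p q) = (bsT p' q')⁻¹))

/-- BD: the pairs (Baumslag-Solitar group, `t`) and (`⟨a, t | a^p = t^q⟩`, `a`) -/
def T_BD : Prop := ∀ p q p' q' : ℤ, p ≠ 0 → q ≠ 0 → 2 ≤ |p'| → 2 ≤ |q'| →
  ((∃ β : BS p q ≃* TK p' q', β (bsT p q) = tkA p' q' ∨ β (bsT p q) = (tkA p' q')⁻¹) →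
    pm 1 (-1) p q ∧ |p'| = 2 ∧ |q'| = 2) ∧
  (pm 1 (-1) p q → |p'| = 2 → |q'| = 2 →
    (∃ β : BS p q ≃* TK p' q', β (bsT p q) = tkA p' q') ∧
    (∃ β : BS p q ≃* TK p' q', β (bsT p q) = (tkA p' q')⁻¹))

/-- FAM: the complete classification of the three families -/
def T_FAM : Prop := ∀ (X X' : Type) [Finite X] [Finite X'] (w : FreeGroup X)
  (w' : FreeGroup X'), Root w → ¬ Prim w → Root w' → ¬ Prim w' → ∀ s s' : Sh, s.ok → s'.ok →
  (Nonempty (OR (s.rel w) ≃* OR (s'.rel w')) ↔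
    ∃ α : FreeGroup X ≃* FreeGroup X', (α w = w' ∧ s.eqv true s') ∨ (α w = w'⁻¹ ∧ s.eqv false s'))

/-! ## A larger class of groups -/

/-- the groups which are generated by subgroups of the class `KK` in a connected way: `P` contains
a subgroup `K` of the class `KK`, and for all `s` in a generating set of `P` the subgroups `K` and
`s K s⁻¹` are joined by a chain of subgroups of the class `KK` such that consecutive members have
a nontrivial intersection -/
def KS (P : Type) [Group P] : Prop := ∃ (K : Subgroup P) (S : Set P), KK K ∧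
  Subgroup.closure S = ⊤ ∧ ∀ s ∈ S, Relation.ReflTransGen
    (fun A B : Subgroup P => KK B ∧ A ⊓ B ≠ ⊥) K (K.map (MulAut.conj s).toMonoidHom)

/-- the groups which fix a red vertex whenever they act on a tree with two colours such that a
nontrivial element fixes at most one red vertex and no subgroup of the class `KK` fixes a blue
vertex -/
def KG (P : Type) [Group P] : Prop := ∀ S : GTree P, S.AC →
  (∀ (K : Subgroup P) (v : S.V), KK K → ¬ S.red v → ¬ ∀ g ∈ K, g • v = v) →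
  ∃ v : S.V, S.red v ∧ ∀ g : P, g • v = v

/-- KA: the class `KS` is contained in `KG` and contains `KK` -/
def T_KA : Prop := (∀ (P : Type) [Group P], KS P → KG P) ∧ ∀ (P : Type) [Group P], KK P → KS P

/-- `(t a t⁻¹) a^m (t a t⁻¹)⁻¹ = a^n` with the word `w` for `a` -/
def relG {X : Type} (w : FreeGroup X) (m n : ℤ) : FreeGroup (Option X) :=
  (FreeGroup.of none * FreeGroup.map some w * (FreeGroup.of none)⁻¹) *
    FreeGroup.map some w ^ m *
    (FreeGroup.of none * FreeGroup.map some w * (FreeGroup.of none)⁻¹)⁻¹ *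
    (FreeGroup.map some w ^ n)⁻¹

/-- BG: the Baumslag-Gersten groups are in the class `KS` -/
def T_BG : Prop := ∀ m n : ℤ, m ≠ 0 → n ≠ 0 →
  KS (OR (relG (FreeGroup.of ()) m n)) ∧
  Inf (PresentedGroup.of (some ()) : OR (relG (FreeGroup.of ()) m n))

end ORg
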