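import Pool.Agent.H5.OR.Defs2

/-!
# Isomorphism problem for one-relator groups (MP_e1fd52_al): stars of groups, several words
(definitions, board ors_modules)
-/

set_option autoImplicit false

open scoped Classical

namespace ORg

/-! ## Stars of groups -/

/-- `G` is the fundamental group of a star of groups: centre `A`, leaves `B i`, edge groups `H i` -/
structure IsSt {I : Type} {H B : I → Type} {A G : Type} [∀ i, Group (H i)] [∀ i, Group (B i)]
    [Group A] [Group G] (f : ∀ i, H i →* A) (g : ∀ i, H i →* B i) (a : A →* G)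
    (b : ∀ i, B i →* G) : Prop where
  comm : ∀ i h, a (f i h) = b i (g i h)
  lift : ∀ (K : Type) [Group K] (u : A →* K) (v : ∀ i, B i →* K),
    (∀ i h, u (f i h) = v i (g i h)) →
    ∃ k : G →* K, (∀ x, k (a x) = u x) ∧ ∀ i x, k (b i x) = v i x
  uniq : ∀ (K : Type) [Group K] (k l : G →* K), (∀ x, k (a x) = l (a x)) →
    (∀ i x, k (b i x) = l (b i x)) → k = l

/-- the tree of a star of groups: the edges `r, b i` represent the orbits of edges -/
structure IsStT {G I : Type} [Group G] (S : GTree G) (A : Subgroup G) (B : I → Subgroup G)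
    (r : S.V) (b : I → S.V) : Prop where
  red : S.red r
  adj : ∀ i, S.T.Adj r (b i)
  stA : ∀ g : G, g • r = r ↔ g ∈ A
  stB : ∀ i, ∀ g : G, g • b i = b i ↔ g ∈ B i
  edge : ∀ u v : S.V, S.red u → S.T.Adj u v → ∃ (g : G) (i : I), u = g • r ∧ v = g • b i
  orb : ∀ (i j : I) (g : G), g • b i = b j → i = j

/-- the hypotheses of the theorem on several words: `G` is a star of groups with centre `P` and
leaves the free groups on `X i ⊕ Z i`, which are glued along `w i = a i`; `w i` lies in the free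
factor on `X i` -/
structure Hy {I : Type} {X Z : I → Type} {P G : Type} [Group P] [Group G]
    (w : ∀ i, FreeGroup (X i)) (a : I → P) (iF : ∀ i, FreeGroup (X i ⊕ Z i) →* G)
    (iP : P →* G) : Prop where
  ne : Nonempty I
  st : IsSt (fun i => zpowersHom P (a i)) (fun i => zpowersHom (FreeGroup (X i ⊕ Z i)) (fl (w i)))
    iP iF
  root : ∀ i, Root (w i)
  lf : ∀ i, (Wh (w i) ∧ Nontrivial (X i)) ∨ Subsingleton (X i)
  fin : ∀ i, Finite (X i)
  kg : KG P
  inf : ∀ i, Inf (a i)

/-- the situation of the theorem on several words, with the tree -/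
structure Sx {I : Type} {X Z : I → Type} {P G : Type} [Group P] [Group G]
    (w : ∀ i, FreeGroup (X i)) (a : I → P) (iF : ∀ i, FreeGroup (X i ⊕ Z i) →* G)
    (iP : P →* G) (S : GTree G) (r : S.V) (b : I → S.V) : Prop where
  hy : Hy w a iF iP
  injF : ∀ i, Function.Injective (iF i)
  injP : Function.Injective iP
  am : IsStT S iP.range (fun i => (iF i).range) r b
  eq : ∀ i, iF i (fl (w i)) = iP (a i)
  inter : ∀ i x y, iF i x = iP y → ∃ k : ℤ, x = fl (w i) ^ k ∧ y = a i ^ k
  ac : S.AC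

/-- substitution of the words `w i` for the letters `i` -/
def subW {I Y : Type} {X : I → Type} (w : ∀ i, FreeGroup (X i)) :
    FreeGroup (I ⊕ Y) →* FreeGroup ((Σ i, X i) ⊕ Y) :=
  FreeGroup.lift fun z => match z with
    | Sum.inl i => FreeGroup.map (fun x => Sum.inl ⟨i, x⟩) (w i)
    | Sum.inr y => FreeGroup.of (Sum.inr y)

/-- the words are equivalent by an isomorphism after adding free generators -/
def StEq {X X' : Type} (w : FreeGroup X) (w' : FreeGroup X') : Prop :=
  ∃ (N N' : Type) (_ : Finite N) (_ : Finite N') (α : FreeGroup (X ⊕ N) ≃* FreeGroup (X' ⊕ N')),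
    α (fl w) = fl w'

/-! ## The groups `⟨x, a | x^k a^p x^(-k) = a^q⟩` -/

/-- `x^k a^p x^(-k) a^(-q)` with `x` the letter `true` and `a` the letter `false` -/
def relK (k : ℕ) (p q : ℤ) : FreeGroup (Bool ⊕ Empty) :=
  FreeGroup.of (Sum.inl true) ^ k * FreeGroup.of (Sum.inl false) ^ p *
    (FreeGroup.of (Sum.inl true) ^ k)⁻¹ * (FreeGroup.of (Sum.inl false) ^ q)⁻¹

/-- the group `⟨x, a | x^k a^p x^(-k) = a^q⟩` -/
abbrev KP (k : ℕ) (p q : ℤ) : Type := OR (relK k p q)

/-- the generators `x` (for `true`) and `a` (for `false`) -/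
def kg {k : ℕ} {p q : ℤ} (i : Bool) : KP k p q := PresentedGroup.of (Sum.inl i)

/-- there is a crossed homomorphism for `ρ` which is not principal -/
def Jmp {P : Type} [Group P] (ρ : P →* ℂˣ) : Prop :=
  ∃ c : P → ℂ, (∀ g h, c (g * h) = (ρ g : ℂ) * c h + c g) ∧
    ¬ ∃ l : ℂ, ∀ g, c g = l * ((ρ g : ℂ) - 1)

/-- the relator `v w^p v⁻¹ w^(-q)`, `w` a word over `X`, `v` a word over `Y` -/
def rl {X Y : Type} (v : FreeGroup Y) (w : FreeGroup X) (p q : ℤ) : FreeGroup (X ⊕ Y) :=
  FreeGroup.map Sum.inr v * FreeGroup.map Sum.inl w ^ p * (FreeGroup.map Sum.inr v)⁻¹ *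
    (FreeGroup.map Sum.inl w ^ q)⁻¹

/-- the relation between the exponents of two isomorphic groups; `τ` is the permutation of the two
words and `e` are the signs -/
def Ex (τ : Bool ≃ Bool) (e : Bool → ℤ) (k : ℕ) (p q : ℤ) (k' : ℕ) (p' q' : ℤ) : Prop :=
  (τ = Equiv.refl Bool ∧ k = k' ∧
    ((e true = 1 ∧ pm p q p' q') ∨ (e true = -1 ∧ pm q p p' q'))) ∨
  (τ = Equiv.swap true false ∧ p = q ∧ p' = q' ∧ |p| = k' ∧ |p'| = k)

end ORg
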