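import Pool.Agent.H5.OR.Defs2

/-!
# Isomorphism problem for one-relator groups (MP_e1fd52_al): the three families
-/

set_option autoImplicit false

open scoped Classical

namespace ORg

/-- existence of an isomorphism of pairs, both signs -/
def PI {P P' : Type} [Group P] [Group P'] (a : P) (a' : P') (A B : Prop) : Prop :=
  ((∃ β : P ≃* P', β a = a') ↔ A) ∧ ((∃ β : P ≃* P', β a = a'⁻¹) ↔ B)

theorem PI.symm {P P' : Type} [Group P] [Group P'] {a : P} {a' : P'} {A B : Prop}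
    (h : PI a a' A B) : PI a' a A B := by
  refine ⟨⟨?_, ?_⟩, ⟨?_, ?_⟩⟩
  · rintro ⟨β, hβ⟩
    exact h.1.1 ⟨β.symm, by rw [← hβ, β.symm_apply_apply]⟩
  · intro hA
    obtain ⟨β, hβ⟩ := h.1.2 hA
    exact ⟨β.symm, by rw [← hβ, β.symm_apply_apply]⟩
  · rintro ⟨β, hβ⟩
    refine h.2.1 ⟨β.symm, ?_⟩
    have h1 : β (a'⁻¹) = a := by rw [map_inv, hβ, inv_inv]
    rw [← h1, β.symm_apply_apply]
  · intro hB
    obtain ⟨β, hβ⟩ := h.2.2 hB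
    refine ⟨β.symm, ?_⟩
    have h1 : β (a⁻¹) = a' := by rw [map_inv, hβ, inv_inv]
    rw [← h1, β.symm_apply_apply]

theorem PI.of {P P' : Type} [Group P] [Group P'] {a : P} {a' : P'} {A : Prop}
    (h1 : (∃ β : P ≃* P', β a = a' ∨ β a = a'⁻¹) → A)
    (h2 : A → (∃ β : P ≃* P', β a = a') ∧ (∃ β : P ≃* P', β a = a'⁻¹)) : PI a a' A A :=
  ⟨⟨fun ⟨β, hβ⟩ => h1 ⟨β, Or.inl hβ⟩, fun hA => (h2 hA).1⟩,
    ⟨fun ⟨β, hβ⟩ => h1 ⟨β, Or.inr hβ⟩, fun hA => (h2 hA).2⟩⟩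

theorem fam_case (RI : T_RI) {X X' : Type} [Finite X] [Finite X'] (w : FreeGroup X)
    (w' : FreeGroup X') (hw : Root w) (hp : ¬ Prim w) (hw' : Root w') (hp' : ¬ Prim w')
    {P P' G G' : Type} [Group P] [Group P'] [Group G] [Group G'] (a : P) (a' : P')
    (hK : KK P ∧ Inf a) (hK' : KK P' ∧ Inf a')
    (hG : ∃ (iF : FreeGroup X →* G) (iP : P →* G),
      IsPO (zpowersHom (FreeGroup X) w) (zpowersHom P a) iF iP)
    (hG' : ∃ (iF : FreeGroup X' →* G') (iP : P' →* G'),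
      IsPO (zpowersHom (FreeGroup X') w') (zpowersHom P' a') iF iP)
    {A B : Prop} (h : PI a a' A B) :
    Nonempty (G ≃* G') ↔
      ∃ α : FreeGroup X ≃* FreeGroup X', (α w = w' ∧ A) ∨ (α w = w'⁻¹ ∧ B) := by
  obtain ⟨iF, iP, h1⟩ := hG
  obtain ⟨iF', iP', h2⟩ := hG'
  rw [RI X X' P P' G G' w w' a a' iF iP iF' iP' h1 h2 hw hp hK.1 hK.2 hw' hp' hK'.1 hK'.2]
  constructor
  · rintro ⟨α, β, hh | hh⟩
    · exact ⟨α, Or.inl ⟨hh.1, h.1.1 ⟨β, hh.2⟩⟩⟩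
    · exact ⟨α, Or.inr ⟨hh.1, h.2.1 ⟨β, hh.2⟩⟩⟩
  · rintro ⟨α, hh | hh⟩
    · obtain ⟨β, hβ⟩ := h.1.2 hh.2
      exact ⟨α, β, Or.inl ⟨hh.1, hβ⟩⟩
    · obtain ⟨β, hβ⟩ := h.2.2 hh.2
      exact ⟨α, β, Or.inr ⟨hh.1, hβ⟩⟩

theorem pf_FAM (RI : T_RI) (PB : T_PB) (RB : T_RB) (BK : T_BK) (BC : T_BC) (KC : T_KC)
    (KD : T_KD) (BW : T_BW) (BT : T_BT) (AB : T_AB) (BD : T_BD) : T_FAM := by
  intro X X' _ _ w w' hw hp hw' hp' s s' hs hs'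
  have hA : ∀ (Y : Type) (v : FreeGroup Y) (p q : ℤ), _ := fun Y v p q => (PB Y v p q).1
  have hC : ∀ (Y : Type) (v : FreeGroup Y) (p q : ℤ), _ := fun Y v p q => (PB Y v p q).2
  have hBB : ∀ p q : ℤ, p ≠ 0 → q ≠ 0 → KK (BS p q) ∧ Inf (bsT p q) :=
    fun p q h1 h2 => ⟨(BK p q h1 h2).1, BW.1 p q⟩
  have eAB : ∀ p q p' q' : ℤ, p ≠ 0 → q ≠ 0 → p' ≠ 0 → q' ≠ 0 →
      PI (bsA p q) (bsT p' q') (pm 1 1 p q ∧ pm 1 1 p' q') (pm 1 1 p q ∧ pm 1 1 p' q') := by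
    intro p q p' q' h1 h2 h3 h4
    exact PI.of (AB p q p' q' h1 h2 h3 h4).1 (fun h => (AB p q p' q' h1 h2 h3 h4).2 h.1 h.2)
  have eBC : ∀ p q p' q' : ℤ, p ≠ 0 → q ≠ 0 → 2 ≤ |p'| → 2 ≤ |q'| →
      PI (bsT p q) (tkA p' q') (pm 1 (-1) p q ∧ |p'| = 2 ∧ |q'| = 2)
        (pm 1 (-1) p q ∧ |p'| = 2 ∧ |q'| = 2) := by
    intro p q p' q' h1 h2 h3 h4
    exact PI.of (BD p q p' q' h1 h2 h3 h4).1
      (fun h => (BD p q p' q' h1 h2 h3 h4).2 h.1 h.2.1 h.2.2)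
  have eCA : ∀ p q p' q' : ℤ, 2 ≤ |p| → 2 ≤ |q| → p' ≠ 0 → q' ≠ 0 →
      PI (tkA p q) (bsA p' q') False False := by
    intro p q p' q' h1 h2 h3 h4
    exact PI.of ((KD p q p' q' h1 h2).2 h3 h4) (fun h => h.elim)
  cases s with
  | A p q =>
    cases s' with
    | A p' q' =>
      refine fam_case RI w w' hw hp hw' hp' (bsA p q) (bsA p' q') (BK p q hs.1 hs.2)
        (BK p' q' hs'.1 hs'.2) (hA X w p q) (hA X' w' p' q') ?_
      have h := BC p q p' q' hs.1 hs.2 hs'.1 hs'.2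
      have he : (pm p q p' q' ∨ pm q p p' q') ↔ ((p' = p ∧ q' = q) ∨ (p' = -p ∧ q' = -q) ∨
          (p' = q ∧ q' = p) ∨ (p' = -q ∧ q' = -p)) := by
        unfold pm
        rw [or_assoc]
      exact PI.of (fun h1 => he.2 (h.1 h1)) (fun h1 => h.2 (he.1 h1))
    | B p' q' =>
      exact fam_case RI w w' hw hp hw' hp' (bsA p q) (bsT p' q') (BK p q hs.1 hs.2)
        (hBB p' q' hs'.1 hs'.2) (hA X w p q) (RB X' w' p' q') (eAB _ _ _ _ hs.1 hs.2 hs'.1 hs'.2)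
    | C p' q' =>
      exact fam_case RI w w' hw hp hw' hp' (bsA p q) (tkA p' q') (BK p q hs.1 hs.2)
        (KC p' q' hs'.1 hs'.2) (hA X w p q) (hC X' w' p' q')
        (eCA p' q' p q hs'.1 hs'.2 hs.1 hs.2).symm
  | B p q =>
    cases s' with
    | A p' q' =>
      refine fam_case RI w w' hw hp hw' hp' (bsT p q) (bsA p' q') (hBB p q hs.1 hs.2)
        (BK p' q' hs'.1 hs'.2) (RB X w p q) (hA X' w' p' q') ?_
      have h := (eAB p' q' p q hs'.1 hs'.2 hs.1 hs.2).symm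
      rw [and_comm] at h
      exact h
    | B p' q' =>
      exact fam_case RI w w' hw hp hw' hp' (bsT p q) (bsT p' q') (hBB p q hs.1 hs.2)
        (hBB p' q' hs'.1 hs'.2) (RB X w p q) (RB X' w' p' q')
        (BT p q p' q' hs.1 hs.2 hs'.1 hs'.2)
    | C p' q' =>
      exact fam_case RI w w' hw hp hw' hp' (bsT p q) (tkA p' q') (hBB p q hs.1 hs.2)
        (KC p' q' hs'.1 hs'.2) (RB X w p q) (hC X' w' p' q') (eBC _ _ _ _ hs.1 hs.2 hs'.1 hs'.2)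
  | C p q =>
    cases s' with
    | A p' q' =>
      exact fam_case RI w w' hw hp hw' hp' (tkA p q) (bsA p' q') (KC p q hs.1 hs.2)
        (BK p' q' hs'.1 hs'.2) (hC X w p q) (hA X' w' p' q')
        (eCA p q p' q' hs.1 hs.2 hs'.1 hs'.2)
    | B p' q' =>
      exact fam_case RI w w' hw hp hw' hp' (tkA p q) (bsT p' q') (KC p q hs.1 hs.2)
        (hBB p' q' hs'.1 hs'.2) (hC X w p q) (RB X' w' p' q')
        (eBC _ _ _ _ hs'.1 hs'.2 hs.1 hs.2).symm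
    | C p' q' =>
      refine fam_case RI w w' hw hp hw' hp' (tkA p q) (tkA p' q') (KC p q hs.1 hs.2)
        (KC p' q' hs'.1 hs'.2) (hC X w p q) (hC X' w' p' q') ?_
      have h := (KD p q p' q' hs.1 hs.2).1 hs'.1 hs'.2
      exact PI.of h.1 h.2

end ORg
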