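import Pool.Agent.H5.OR.Targets

/-!
# Isomorphism problem for one-relator groups (MP_e1fd52_al): substitution in presentations
-/

set_option autoImplicit false

open scoped Classical

namespace ORg

/-- the substitution of the word `w` over `X` for the letter `a = none` in the words over
`{a} ∪ Y` -/
def sub {X Y : Type} (w : FreeGroup X) : FreeGroup (Option Y) →* FreeGroup (X ⊕ Y) :=
  FreeGroup.lift fun z => match z with
    | none => FreeGroup.map Sum.inl w
    | some y => FreeGroup.of (Sum.inr y)

theorem sub_none {X Y : Type} (w : FreeGroup X) :
    sub (Y := Y) w (FreeGroup.of none) = FreeGroup.map Sum.inl w := by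
  simp [sub]

theorem sub_some {X Y : Type} (w : FreeGroup X) (y : Y) :
    sub w (FreeGroup.of (some y)) = FreeGroup.of (Sum.inr y) := by
  simp [sub]

/-- PC: the group `⟨X, Y | R(w, Y)⟩` as a pushout -/
theorem pf_PC (X Y : Type) (w : FreeGroup X) (R : Set (FreeGroup (Option Y))) :
    ∃ (iF : FreeGroup X →* PresentedGroup (sub w '' R))
      (iP : PresentedGroup R →* PresentedGroup (sub w '' R)),
    IsPO (zpowersHom (FreeGroup X) w) (zpowersHom (PresentedGroup R) (PresentedGroup.of none))
      iF iP := by
  have hmk : ∀ r ∈ R, PresentedGroup.mk (sub w '' R) (sub w r) = 1 := by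
    intro r hr
    exact PresentedGroup.one_of_mem (Set.mem_image_of_mem _ hr)
  let iF : FreeGroup X →* PresentedGroup (sub w '' R) :=
    (PresentedGroup.mk (sub w '' R)).comp (FreeGroup.map Sum.inl)
  let iP : PresentedGroup R →* PresentedGroup (sub w '' R) :=
    PresentedGroup.toGroup (f := fun z => PresentedGroup.mk (sub w '' R)
      (sub w (FreeGroup.of z))) (by
        intro r hr
        have h : FreeGroup.lift (fun z => PresentedGroup.mk (sub w '' R)
            (sub w (FreeGroup.of z))) = (PresentedGroup.mk (sub w '' R)).comp (sub w) := by
          ext z
          simp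
        rw [h]
        exact hmk r hr)
  have hiP : ∀ z, iP (PresentedGroup.of z) = PresentedGroup.mk (sub w '' R)
      (sub w (FreeGroup.of z)) := fun z => PresentedGroup.toGroup.of _
  refine ⟨iF, iP, ?_, ?_, ?_⟩
  · intro h
    induction h using Multiplicative.rec with
    | _ n =>
      simp only [zpowersHom_apply, toAdd_ofAdd, map_zpow, hiP, sub_none]
      rfl
  · intro K _ u v huv
    have h1 : u w = v (PresentedGroup.of none) := by
      have := huv (Multiplicative.ofAdd 1)
      simpa using this
    let f : X ⊕ Y → K := fun z => match z with
      | Sum.inl x => u (FreeGroup.of x)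
      | Sum.inr y => v (PresentedGroup.of (some y))
    have hfl : (FreeGroup.lift f).comp (FreeGroup.map Sum.inl) = u := by
      ext x
      simp [f]
    have hfs : (FreeGroup.lift f).comp (sub w) = v.comp (PresentedGroup.mk R) := by
      ext z
      cases z with
      | none =>
        simp only [MonoidHom.comp_apply, sub_none]
        have := DFunLike.congr_fun hfl w
        simp only [MonoidHom.comp_apply] at this
        rw [this, h1]
        rfl
      | some y =>
        simp only [MonoidHom.comp_apply, sub_some, FreeGroup.lift_apply_of]
        rfl
    have hrel : ∀ r ∈ sub w '' R, FreeGroup.lift f r = 1 := by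
      rintro _ ⟨r, hr, rfl⟩
      have := DFunLike.congr_fun hfs r
      simp only [MonoidHom.comp_apply] at this
      rw [this]
      have h2 : PresentedGroup.mk R r = 1 := PresentedGroup.one_of_mem hr
      rw [h2, map_one]
    refine ⟨PresentedGroup.toGroup hrel, ?_, ?_⟩
    · intro x
      have : (PresentedGroup.toGroup hrel).comp iF = u := by
        rw [← hfl]
        ext x
        simp only [iF, MonoidHom.comp_apply, FreeGroup.map.of]
        exact (PresentedGroup.toGroup.of hrel).trans (by simp)
      exact DFunLike.congr_fun this x
    · intro x
      have : (PresentedGroup.toGroup hrel).comp iP = v := by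
        ext z
        simp only [MonoidHom.comp_apply, hiP]
        have h3 : ∀ y, PresentedGroup.toGroup hrel (PresentedGroup.mk (sub w '' R) y) =
            FreeGroup.lift f y := fun y => rfl
        rw [h3]
        have := DFunLike.congr_fun hfs (FreeGroup.of z)
        simp only [MonoidHom.comp_apply] at this
        exact this
      exact DFunLike.congr_fun this x
  · intro K _ k l h1 h2
    ext z
    cases z with
    | inl x =>
      have := h1 (FreeGroup.of x)
      simp only [iF, MonoidHom.comp_apply, FreeGroup.map.of] at this
      exact this
    | inr y =>
      have := h2 (PresentedGroup.of (some y))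
      rw [hiP, sub_some] at this
      exact this

end ORg
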