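import Pool.Agent.H5.OR.All
import Pool.Agent.H5.OR.Pres
import Pool.Agent.H5.OR.Fam

/-!
# Isomorphism problem for one-relator groups (MP_e1fd52_al): final theorems
-/

set_option autoImplicit false

open scoped Classical

namespace ORg

/-- rigidity for the class `KK` -/
theorem RI0 : T_RI := by
  intro X X' P P' G G' _ _ _ _ _ _ w w' a a' iF iP iF' iP' h h' hw hp hK ha hw' hp' hK' ha'
  exact All.RI X X' P P' G G' w w' a a' iF iP iF' iP' h h' hw hp
    (All.KA.1 P (All.KA.2 P hK)) ha hw' hp' (All.KA.1 P' (All.KA.2 P' hK')) ha'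

theorem FAM : T_FAM := pf_FAM RI0 All.PB All.RB All.BK All.BC All.KC All.KD All.BW All.BT All.AB
  All.BD

/-- rigidity for the class `KS`, in terms of presentations -/
theorem rigid (X X' Y Y' : Type) [Finite X] [Finite X'] (w : FreeGroup X) (w' : FreeGroup X')
    (R : Set (FreeGroup (Option Y))) (R' : Set (FreeGroup (Option Y'))) (hw : Root w)
    (hp : ¬ Prim w) (hw' : Root w') (hp' : ¬ Prim w') (hK : KS (PresentedGroup R))
    (hK' : KS (PresentedGroup R')) (ha : Inf (PresentedGroup.of none : PresentedGroup R))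
    (ha' : Inf (PresentedGroup.of none : PresentedGroup R')) :
    Nonempty (PresentedGroup (sub w '' R) ≃* PresentedGroup (sub w' '' R')) ↔
      ∃ (α : FreeGroup X ≃* FreeGroup X') (β : PresentedGroup R ≃* PresentedGroup R'),
        (α w = w' ∧ β (PresentedGroup.of none) = PresentedGroup.of none) ∨
        (α w = w'⁻¹ ∧ β (PresentedGroup.of none) = (PresentedGroup.of none)⁻¹) := by
  obtain ⟨iF, iP, h⟩ := pf_PC X Y w R
  obtain ⟨iF', iP', h'⟩ := pf_PC X' Y' w' R'
  exact All.RI X X' _ _ _ _ w w' _ _ iF iP iF' iP' h h' hw hp (All.KA.1 _ hK) ha hw' hp'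
    (All.KA.1 _ hK') ha'

end ORg
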