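import Pool.Agent.H5.OR.Targets

/-!
# Isomorphism problem for one-relator groups (MP_e1fd52_al): assembly
-/

set_option autoImplicit false

open scoped Classical

namespace ORg

/-- the main statement -/
def T_MAIN : Prop :=
  -- rigidity of the amalgamated products
  (∀ (X X' P P' : Type) [Finite X] [Finite X'] [Group P] [Group P'] (w : FreeGroup X)
    (w' : FreeGroup X') (a : P) (a' : P'), Root w → ¬ Prim w → Root w' → ¬ Prim w' →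
    KK P → KK P' → Inf a → Inf a' →
    (Nonempty (Amal w a ≃* Amal w' a') ↔
      ∃ (α : FreeGroup X ≃* FreeGroup X') (β : P ≃* P'),
        (α w = w' ∧ β a = a') ∨ (α w = w'⁻¹ ∧ β a = a'⁻¹))) ∧
  -- the class contains the Baumslag-Solitar groups and the groups `⟨a, t | a^p = t^q⟩`
  (∀ p q : ℤ, p ≠ 0 → q ≠ 0 → KK (BS p q) ∧ Inf (bsA p q)) ∧
  (∀ p q : ℤ, 2 ≤ |p| → 2 ≤ |q| → KK (TK p q) ∧ Inf (tkA p q)) ∧
  -- the one-relator groups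
  (∀ (X X' : Type) [Finite X] [Finite X'] (w : FreeGroup X) (w' : FreeGroup X'),
    Root w → ¬ Prim w → Root w' → ¬ Prim w' → ∀ p q p' q' : ℤ,
    -- `t w^p t⁻¹ = w^q`
    (p ≠ 0 → q ≠ 0 → p' ≠ 0 → q' ≠ 0 →
      (Nonempty (OR (relA w p q) ≃* OR (relA w' p' q')) ↔
        (∃ α : FreeGroup X ≃* FreeGroup X', α w = w' ∨ α w = w'⁻¹) ∧
        ((p' = p ∧ q' = q) ∨ (p' = -p ∧ q' = -q) ∨ (p' = q ∧ q' = p) ∨
          (p' = -q ∧ q' = -p)))) ∧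
    -- `w^p = t^q`
    (2 ≤ |p| → 2 ≤ |q| → 2 ≤ |p'| → 2 ≤ |q'| →
      (Nonempty (OR (relC w p q) ≃* OR (relC w' p' q')) ↔
        (∃ α : FreeGroup X ≃* FreeGroup X', α w = w' ∨ α w = w'⁻¹) ∧
        |p'| = |p| ∧ |q'| = |q|)) ∧
    -- a group of the second family is not isomorphic to a group of the first family
    (2 ≤ |p| → 2 ≤ |q| → p' ≠ 0 → q' ≠ 0 →
      ¬ Nonempty (OR (relC w p q) ≃* OR (relA w' p' q'))))

theorem main (RI : T_RI) (PA : T_PA) (PB : T_PB) (BK : T_BK) (BC : T_BC) (KC : T_KC)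
    (KD : T_KD) : T_MAIN := by
  refine ⟨?_, BK, KC, ?_⟩
  · intro X X' P P' _ _ _ _ w w' a a' hw hp hw' hp' hK hK' ha ha'
    obtain ⟨iF, iP, h⟩ := PA X P w a
    obtain ⟨iF', iP', h'⟩ := PA X' P' w' a'
    exact RI X X' P P' _ _ w w' a a' iF iP iF' iP' h h' hw hp hK ha hw' hp' hK' ha'
  · intro X X' _ _ w w' hw hp hw' hp' p q p' q'
    refine ⟨?_, ?_, ?_⟩
    · intro h1 h2 h3 h4
      obtain ⟨iF, iP, h⟩ := (PB X w p q).1
      obtain ⟨iF', iP', h'⟩ := (PB X' w' p' q').1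
      have hR := RI X X' _ _ _ _ w w' (bsA p q) (bsA p' q') iF iP iF' iP' h h' hw hp
        (BK p q h1 h2).1 (BK p q h1 h2).2 hw' hp' (BK p' q' h3 h4).1 (BK p' q' h3 h4).2
      rw [hR]
      have hB := BC p q p' q' h1 h2 h3 h4
      constructor
      · rintro ⟨α, β, h | h⟩
        · exact ⟨⟨α, Or.inl h.1⟩, hB.1 ⟨β, Or.inl h.2⟩⟩
        · exact ⟨⟨α, Or.inr h.1⟩, hB.1 ⟨β, Or.inr h.2⟩⟩
      · rintro ⟨⟨α, h | h⟩, hpq⟩
        · obtain ⟨⟨β, hβ⟩, -⟩ := hB.2 hpq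
          exact ⟨α, β, Or.inl ⟨h, hβ⟩⟩
        · obtain ⟨-, ⟨β, hβ⟩⟩ := hB.2 hpq
          exact ⟨α, β, Or.inr ⟨h, hβ⟩⟩
    · intro h1 h2 h3 h4
      obtain ⟨iF, iP, h⟩ := (PB X w p q).2
      obtain ⟨iF', iP', h'⟩ := (PB X' w' p' q').2
      have hR := RI X X' _ _ _ _ w w' (tkA p q) (tkA p' q') iF iP iF' iP' h h' hw hp
        (KC p q h1 h2).1 (KC p q h1 h2).2 hw' hp' (KC p' q' h3 h4).1 (KC p' q' h3 h4).2
      rw [hR]
      have hB := (KD p q p' q' h1 h2).1 h3 h4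
      constructor
      · rintro ⟨α, β, h | h⟩
        · exact ⟨⟨α, Or.inl h.1⟩, hB.1 ⟨β, Or.inl h.2⟩⟩
        · exact ⟨⟨α, Or.inr h.1⟩, hB.1 ⟨β, Or.inr h.2⟩⟩
      · rintro ⟨⟨α, h | h⟩, hpq⟩
        · obtain ⟨⟨β, hβ⟩, -⟩ := hB.2 hpq
          exact ⟨α, β, Or.inl ⟨h, hβ⟩⟩
        · obtain ⟨-, ⟨β, hβ⟩⟩ := hB.2 hpq
          exact ⟨α, β, Or.inr ⟨h, hβ⟩⟩
    · intro h1 h2 h3 h4 hi
      obtain ⟨iF, iP, h⟩ := (PB X w p q).2
      obtain ⟨iF', iP', h'⟩ := (PB X' w' p' q').1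
      obtain ⟨α, β, hh⟩ := (RI X X' _ _ _ _ w w' (tkA p q) (bsA p' q') iF iP iF' iP' h h' hw hp
        (KC p q h1 h2).1 (KC p q h1 h2).2 hw' hp' (BK p' q' h3 h4).1 (BK p' q' h3 h4).2).1 hi
      refine (KD p q p' q' h1 h2).2 h3 h4 ⟨β, ?_⟩
      rcases hh with hh | hh
      · exact Or.inl hh.2
      · exact Or.inr hh.2

end ORg
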