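import Pool.Agent.H5.OR.Defs

/-!
# Isomorphism problem for one-relator groups (MP_e1fd52_al): targets (board org_modules)
-/

set_option autoImplicit false

open scoped Classical

namespace ORg

/-! ## 1. Trees -/

/-- TA: half trees -/
def T_TA : Prop := ∀ (G : Type) [Group G] (S : GTree G),
  (∀ (g : G) (u v : S.V), S.T.dist (g • u) (g • v) = S.T.dist u v) ∧
  (∀ (g : G) (u v : S.V), S.T.Adj (g • u) (g • v) ↔ S.T.Adj u v) ∧
  (∀ (g : G) (a b v : S.V), g • v ∈ S.hs (g • a) (g • b) ↔ v ∈ S.hs a b) ∧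
  (∀ a b : S.V, S.T.Adj a b → ∀ v, (v ∈ S.hs a b ∨ v ∈ S.hs b a) ∧
    ¬ (v ∈ S.hs a b ∧ v ∈ S.hs b a)) ∧
  (∀ a b : S.V, S.T.Adj a b → a ∈ S.hs a b ∧ b ∉ S.hs a b) ∧
  (∀ a b : S.V, S.T.Adj a b → ∀ v ∈ S.hs a b, S.T.dist v b = S.T.dist v a + 1) ∧
  (∀ a b : S.V, S.T.Adj a b → ∀ u v, S.T.Adj u v → u ∈ S.hs a b → v ∈ S.hs b a →
    u = a ∧ v = b) ∧
  (∀ a b : S.V, S.T.Adj a b → ∀ u v, u ∈ S.hs a b → v ∈ S.hs b a →
    S.T.dist u v = S.T.dist u a + 1 + S.T.dist b v) ∧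
  (∀ u v : S.V, u ≠ v → ∃ a, S.T.Adj u a ∧ v ∈ S.hs a u) ∧
  (∀ x y : S.V, {p : S.V × S.V | S.T.Adj p.1 p.2 ∧ x ∈ S.hs p.1 p.2 ∧
    y ∈ S.hs p.2 p.1}.Finite)

/-- TN: position of two edges -/
def T_TN : Prop := ∀ (G : Type) [Group G] (S : GTree G),
  (∀ a b c d : S.V, S.T.Adj a b → S.T.Adj c d → ¬ (c = a ∧ d = b) → ¬ (c = b ∧ d = a) →
    ((c ∈ S.hs a b ∧ d ∈ S.hs a b) ∨ (c ∈ S.hs b a ∧ d ∈ S.hs b a))) ∧
  (∀ a b c d : S.V, S.T.Adj a b → S.T.Adj c d → c ∈ S.hs b a → d ∈ S.hs b a →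
    a ∈ S.hs c d → b ∈ S.hs c d → ∀ v ∈ S.hs d c, v ∈ S.hs b a) ∧
  (∀ (g : G) (u v a b : S.V), g • u = u → g • v = v → S.T.Adj a b → u ∈ S.hs a b →
    v ∈ S.hs b a → g • a = a ∧ g • b = b)

/-- TP: translations -/
def T_TP : Prop := ∀ (G : Type) [Group G] (S : GTree G) (g : G) (a b : S.V),
  (S.T.Adj a b → g • a ∈ S.hs b a → a ∈ S.hs (g • a) (g • b) → S.Axis g a b) ∧
  (S.Axis g a b → ∀ n : ℤ, n ≠ 0 → ∀ v : S.V, (g ^ n) • v ≠ v)

/-- TH: an element without fixed vertex has an axis -/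
def T_TH : Prop := ∀ (G : Type) [Group G] (S : GTree G) (g : G),
  (∀ v : S.V, g • v ≠ v) → ∃ a b : S.V, S.Axis g a b

/-- TS: Serre's lemma -/
def T_TS : Prop := ∀ (G : Type) [Group G] (S : GTree G), Group.FG G →
  (∀ g : G, ∃ v : S.V, g • v = v) → ∃ v : S.V, ∀ g : G, g • v = v

/-- TL: the translation length -/
def T_TL : Prop := ∀ (G : Type) [Group G] (S : GTree G) (c g : G) (m n : ℤ),
  (∀ v : S.V, c • v ≠ v) → m ≠ 0 → n ≠ 0 → g * c ^ m * g⁻¹ = c ^ n → |m| = |n|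

/-- TC: elements which commensurate a translation -/
def T_TC : Prop := ∀ (G : Type) [Group G] (S : GTree G) (c g : G) (m n : ℤ), S.AC →
  (∀ v : S.V, c • v ≠ v) → m ≠ 0 → n ≠ 0 → g * c ^ m * g⁻¹ = c ^ n →
  ∃ k : ℤ, k ≠ 0 ∧ g ^ k ∈ Subgroup.zpowers c

/-- TE: an extremal edge of a finite set of edges -/
def T_TE : Prop := ∀ (G : Type) [Group G] (S : GTree G) (E : Set (S.V × S.V)),
  E.Finite → E.Nonempty → (∀ p ∈ E, S.T.Adj p.1 p.2 ∧ S.red p.1) →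
  ∃ p ∈ E, (∀ q ∈ E, q ≠ p → q.1 ∈ S.hs p.1 p.2) ∨ (∀ q ∈ E, q ≠ p → q.1 ∈ S.hs p.2 p.1)

/-- TK: groups of the class `KK` fix a vertex -/
def T_TK : Prop := ∀ (P : Type) [Group P] (S : GTree P), KK P → S.AC →
  ∃ v : S.V, ∀ g : P, g • v = v

/-! ## 2. The tree of an amalgamated product -/

/-- AG: a pushout is generated by the two groups -/
def T_AG : Prop := ∀ (H A B G : Type) [Group H] [Group A] [Group B] [Group G] (f : H →* A)
  (g : H →* B) (a : A →* G) (b : B →* G), IsPO f g a b → a.range ⊔ b.range = ⊤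

/-- AI: the two groups embed in a pushout along injective homomorphisms -/
def T_AI : Prop := ∀ (H A B G : Type) [Group H] [Group A] [Group B] [Group G] (f : H →* A)
  (g : H →* B) (a : A →* G) (b : B →* G), IsPO f g a b → Function.Injective f →
  Function.Injective g → Function.Injective a ∧ Function.Injective b

/-- AT: the function which gives the sides of the base edge -/
def T_AT : Prop := ∀ (H A B G : Type) [Group H] [Group A] [Group B] [Group G] (f : H →* A)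
  (g : H →* B) (a : A →* G) (b : B →* G), IsPO f g a b → ∃ τ : G → Bool, τ 1 = true ∧
  (∀ (x : G) (y : A), τ (x * a y) = τ x) ∧
  (∀ (x : G) (y : B), xor (τ (x * b y)) (decide (x * b y ∈ (a.comp f).range)) =
    xor (τ x) (decide (x ∈ (a.comp f).range)))

/-- AV: the tree, from the function `τ` -/
def T_AV : Prop := ∀ (G : Type) [Group G] (A B C : Subgroup G) (τ : G → Bool), A ⊔ B = ⊤ →
  C ≤ A → C ≤ B → τ 1 = true → (∀ x, ∀ y ∈ A, τ (x * y) = τ x) →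
  (∀ x, ∀ y ∈ B, xor (τ (x * y)) (decide (x * y ∈ C)) = xor (τ x) (decide (x ∈ C))) →
  A ⊓ B = C ∧ ∃ (S : GTree G) (r b : S.V), IsAm S A B r b

/-- AM: the tree of a pushout -/
def T_AM : Prop := ∀ (H A B G : Type) [Group H] [Group A] [Group B] [Group G] (f : H →* A)
  (g : H →* B) (a : A →* G) (b : B →* G), IsPO f g a b → Function.Injective f →
  Function.Injective g → Function.Injective a ∧ Function.Injective b ∧
  (∀ x y, a x = b y → ∃ h, x = f h ∧ y = g h) ∧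
  ∃ (S : GTree G) (r v : S.V), IsAm S a.range b.range r v

/-- AC: a malnormal edge group -/
def T_AC : Prop := ∀ (G : Type) [Group G] (A B : Subgroup G) (S : GTree G) (r b : S.V),
  IsAm S A B r b →
  (∀ x ∈ B, ∀ c ∈ A, c ∈ B → c ≠ 1 → x * c * x⁻¹ ∈ A → x ∈ A) → S.AC

/-- AF: a trivial edge group -/
def T_AF : Prop := ∀ (G : Type) [Group G] (A B : Subgroup G) (S : GTree G) (r b : S.V),
  IsAm S A B r b → A ⊓ B = ⊥ →
  (∀ g : G, g ≠ 1 → ∀ u v : S.V, g • u = u → g • v = v → u = v)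

/-- AP: the free product of two free groups as a pushout, with its tree -/
def T_AP : Prop := ∀ (X1 X2 : Type), ∃ (S : GTree (FreeGroup (X1 ⊕ X2))) (r b : S.V),
  IsAm S (FreeGroup.map (Sum.inl : X1 → X1 ⊕ X2)).range
    (FreeGroup.map (Sum.inr : X2 → X1 ⊕ X2)).range r b ∧
  (∀ g : FreeGroup (X1 ⊕ X2), g ≠ 1 → ∀ u v : S.V, g • u = u → g • v = v → u = v)

/-- FF: a free factor is malnormal -/
def T_FF : Prop := ∀ (X1 X2 : Type) (x : FreeGroup (X1 ⊕ X2)) (y z : FreeGroup X1),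
  y ≠ 1 → x * fl y * x⁻¹ = fl z → ∃ x1 : FreeGroup X1, x = fl x1

/-! ## 3. Free groups -/

/-- CT: a free group acts freely on a tree -/
def T_CT : Prop := ∀ (X : Type), ∃ S : GTree (FreeGroup X),
  ∀ (g : FreeGroup X) (v : S.V), g • v = v → g = 1

/-- CC: a free group with nontrivial centre is cyclic -/
def T_CC : Prop := ∀ (F : Type) [Group F] [IsFreeGroup F] (z : F), z ≠ 1 →
  (∀ g : F, g * z = z * g) → ∃ v : F, ∀ g : F, g ∈ Subgroup.zpowers v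

/-- ML: `⟨w⟩` is malnormal if `w` is not a proper power -/
def T_ML : Prop := ∀ (X : Type) (w x : FreeGroup X) (m n : ℤ), Root w → m ≠ 0 →
  x * w ^ m * x⁻¹ = w ^ n → x ∈ Subgroup.zpowers w

/-- NE: a group of the class `KK` does not embed in a free group -/
def T_NE : Prop := ∀ (P X : Type) [Group P] (f : P →* FreeGroup X), KK P →
  ¬ Function.Injective f

/-! ## 4. Lines in the Cayley tree -/

/-- CA: half trees of the Cayley tree -/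
def T_CA : Prop := ∀ (X : Type) (v : FreeGroup X),
  (∀ g : FreeGroup X, g = v ∨ ∃ x, g ∈ Cn v x) ∧
  (∀ x, v ∉ Cn v x) ∧
  (∀ (g : FreeGroup X) x y, g ∈ Cn v x → g ∈ Cn v y → x = y) ∧
  (∀ (g : FreeGroup X) x, g ∈ Cn v x ↔
    (g = v * lw x ∨ ∃ y, y ≠ nv x ∧ g ∈ Cn (v * lw x) y)) ∧
  (∀ (g h : FreeGroup X) x, g * h ∈ Cn (g * v) x ↔ h ∈ Cn v x) ∧
  (∀ (g : FreeGroup X) x y, g ∈ Cn v x → g * lw y ∉ Cn v x → g = v * lw x ∧ y = nv x) ∧
  (∀ (g : FreeGroup X) x y, y ≠ nv x → g ∈ Cn (v * lw x) y →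
    (v⁻¹ * g).norm = ((v * lw x)⁻¹ * g).norm + 1)

/-- CL: lines and half trees -/
def T_CL : Prop := ∀ (X : Type) (w : FreeGroup X) (L : ℕ) (lt : ℤ → X × Bool)
  (u : ℤ → FreeGroup X), Ln w L lt u →
  (∀ i j, i < j → u j ∈ Cn (u i) (lt i)) ∧
  (∀ i j, j < i → u j ∈ Cn (u i) (nv (lt (i - 1)))) ∧
  Function.Injective u ∧
  (∀ (i k : ℤ), u (i + L * k) = w ^ k * u i) ∧ (∀ (i k : ℤ), lt (i + L * k) = lt i) ∧
  (∀ g : FreeGroup X, (∃ i, g = u i) ∨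
    ∃ i x, x ≠ nv (lt (i - 1)) ∧ x ≠ lt i ∧ g ∈ Cn (u i) x) ∧
  (∀ i x, x ≠ nv (lt (i - 1)) → x ≠ lt i → ∀ j, u j ∉ Cn (u i) x) ∧
  (∀ (g : FreeGroup X) i j x y, x ≠ nv (lt (i - 1)) → x ≠ lt i → y ≠ nv (lt (j - 1)) →
    y ≠ lt j → g ∈ Cn (u i) x → g ∈ Cn (u j) y → i = j)

/-- MM: half trees with finitely many changes of colour are almost of one colour -/
def T_MM : Prop := ∀ (X : Type) [Finite X] (w : FreeGroup X) (L : ℕ) (lt : ℤ → X × Bool)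
  (u : ℤ → FreeGroup X), Ln w L lt u → WhG lt → ∀ (U : FreeGroup X → Bool) (v : FreeGroup X)
  (x : X × Bool), (∀ g i, g * u i ∈ Cn v x → ∃ c, Col U u g c) →
  {g | g ∈ Cn v x ∧ ∃ y, g * lw y ∈ Cn v x ∧ U g ≠ U (g * lw y)}.Finite →
  ∃ c, {g | g ∈ Cn v x ∧ U g ≠ c}.Finite

/-- MA: all lines have one colour and there are finitely many changes of colour -/
def T_MA : Prop := ∀ (X : Type) [Finite X] [Nontrivial X] (w : FreeGroup X) (L : ℕ)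
  (lt : ℤ → X × Bool) (u : ℤ → FreeGroup X), Ln w L lt u → WhG lt →
  ∀ (U : FreeGroup X → Bool), (∀ g, ∃ c, Col U u g c) →
  {g | ∃ y, U g ≠ U (g * lw y)}.Finite → ∃ c, {g | U g ≠ c}.Finite

/-- MB: the branches at a vertex of the line of `w`, and propagation along the line -/
def T_MB : Prop := ∀ (X : Type) [Finite X] (w : FreeGroup X) (L : ℕ) (lt : ℤ → X × Bool)
  (u : ℤ → FreeGroup X), Ln w L lt u → WhG lt → ∀ (U : FreeGroup X → Bool) (c : Bool)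
  (i : ℤ), (∀ g, g ∉ Subgroup.zpowers w → ∃ c', Col U u g c') →
  (∀ x, x ≠ nv (lt i) → x ≠ lt (i + 1) →
    ∃ c', {g | g ∈ Cn (u (i + 1)) x ∧ U g ≠ c'}.Finite) →
  (∀ g, g ∉ Subgroup.zpowers w → Thr u g i → Col U u g c) →
  (∀ x, x ≠ nv (lt i) → x ≠ lt (i + 1) → {g | g ∈ Cn (u (i + 1)) x ∧ U g ≠ c}.Finite) ∧
  (∀ g, g ∉ Subgroup.zpowers w → Thr u g (i + 1) → Col U u g c)

/-- MD: the branches off the line of `w` are almost of one colour -/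
def T_MD : Prop := ∀ (X : Type) [Finite X] (w : FreeGroup X) (L : ℕ) (lt : ℤ → X × Bool)
  (u : ℤ → FreeGroup X), Ln w L lt u → WhG lt → ∀ (U : FreeGroup X → Bool) (d : ℕ), 0 < d →
  (∃ D : Set (FreeGroup X), D.Finite ∧ ∀ g y, U g ≠ U (g * lw y) →
    ∃ k : ℤ, (w ^ d) ^ k * g ∈ D) →
  (∀ g, g ∉ Subgroup.zpowers w → ∃ c', Col U u g c') →
  ∀ i x, x ≠ nv (lt (i - 1)) → x ≠ lt i → ∃ c', {g | g ∈ Cn (u i) x ∧ U g ≠ c'}.Finite

/-- MC: the case of a nontrivial edge stabiliser -/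
def T_MC : Prop := ∀ (X : Type) [Finite X] (w : FreeGroup X) (L : ℕ) (lt : ℤ → X × Bool)
  (u : ℤ → FreeGroup X), Ln w L lt u → WhG lt → ∀ (U : FreeGroup X → Bool) (c : Bool)
  (d : ℕ) (i0 : ℤ), 0 < d → (∀ g, U (w ^ d * g) = U g) →
  (∃ D : Set (FreeGroup X), D.Finite ∧ ∀ g y, U g ≠ U (g * lw y) →
    ∃ k : ℤ, (w ^ d) ^ k * g ∈ D) →
  (∀ g, g ∉ Subgroup.zpowers w → ∃ c', Col U u g c') →
  (∀ g, g ∉ Subgroup.zpowers w → Thr u g i0 → Col U u g c) →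
  ∃ D : Set (FreeGroup X), D.Finite ∧ ∀ g, U g ≠ c → ∃ k : ℤ, (w ^ d) ^ k * g ∈ D

/-! ## 5. Actions of free groups on trees -/

/-- SA: the changes of colour -/
def T_SA : Prop := ∀ (X : Type) [Finite X] (S : GTree (FreeGroup X)) (a b x0 : S.V),
  S.T.Adj a b → ∃ E : Set (S.V × S.V), E.Finite ∧ ∀ (g : FreeGroup X) (y : X × Bool),
  ¬ (g • x0 ∈ S.hs a b ↔ (g * lw y) • x0 ∈ S.hs a b) → (g⁻¹ • a, g⁻¹ • b) ∈ E

/-- SB: the colours of the ends of a line -/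
def T_SB : Prop := ∀ (X : Type) (S : GTree (FreeGroup X)) (w : FreeGroup X) (L : ℕ)
  (lt : ℤ → X × Bool) (u : ℤ → FreeGroup X) (a b x0 s : S.V) (d : ℕ) (g : FreeGroup X),
  Ln w L lt u → S.T.Adj a b → 0 < d → (w ^ d) • s = s →
  (∀ k : ℤ, k ≠ 0 → ¬ ((g * w ^ k * g⁻¹) • a = a ∧ (g * w ^ k * g⁻¹) • b = b)) →
  Col (fun h => decide (h • x0 ∈ S.hs a b)) u g (decide (g • s ∈ S.hs a b))

/-- SC: the special edge of the line -/
def T_SC : Prop := ∀ (X : Type) (S : GTree (FreeGroup X)) (w : FreeGroup X) (L : ℕ)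
  (lt : ℤ → X × Bool) (u : ℤ → FreeGroup X) (a b x0 : S.V) (d : ℕ),
  Ln w L lt u → Root w → S.T.Adj a b → 0 < d →
  (∀ g : FreeGroup X, (g • a = a ∧ g • b = b) ↔ g ∈ Subgroup.zpowers (w ^ d)) →
  ∃ (c : Bool) (i0 : ℤ), ∀ g, g ∉ Subgroup.zpowers w → Thr u g i0 →
    Col (fun h => decide (h • x0 ∈ S.hs a b)) u g c

/-- LS: the fixed vertex -/
def T_LS : Prop := ∀ (X : Type) [Finite X] [Nontrivial X] (w : FreeGroup X)
  (S : GTree (FreeGroup X)), Root w → Wh w → (∃ v : S.V, w • v = v) →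
  (∀ a b : S.V, S.T.Adj a b → ∃ x : FreeGroup X, ∀ g : FreeGroup X, g • a = a → g • b = b →
    x⁻¹ * g * x ∈ Subgroup.zpowers w) →
  ∃ v : S.V, ∀ g : FreeGroup X, g • v = v

/-! ## 6. Whitehead's reduction -/

/-- WA: Whitehead automorphisms -/
def T_WA : Prop := ∀ (X : Type) (A : Set (X × Bool)) (x : X × Bool), x ∈ A → nv x ∉ A →
  ∃ φ : FreeGroup X ≃* FreeGroup X, ∀ z, φ (lw z) = sg A x z * tt x z * (sg A x (nv z))⁻¹

/-- WB: the length of the image -/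
def T_WB : Prop := ∀ (X : Type) (w : FreeGroup X) (L : ℕ) (lt : ℤ → X × Bool)
  (u : ℤ → FreeGroup X), Ln w L lt u → ∀ (A : Set (X × Bool)) (x : X × Bool), x ∈ A →
  nv x ∉ A → ∃ (φ : FreeGroup X ≃* FreeGroup X) (g : FreeGroup X),
  (g * φ w * g⁻¹).norm ≤
    ((Finset.range L).filter (fun i => ¬ (lt i = x ∨ lt i = nv x))).card +
    ((Finset.range L).filter (fun i => ¬ (nv (lt i) ∈ A ↔ lt (i + 1) ∈ A))).card

/-- WL: the line of a cyclically reduced word -/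
def T_WL : Prop := ∀ (X : Type) (w : FreeGroup X), w ≠ 1 →
  (∀ g : FreeGroup X, w.norm ≤ (g * w * g⁻¹).norm) →
  ∃ (lt : ℤ → X × Bool) (u : ℤ → FreeGroup X), Ln w w.norm lt u

/-- WM: words of minimal length -/
def T_WM : Prop := ∀ (X : Type) (w : FreeGroup X), w ≠ 1 →
  ∃ (α : FreeGroup X ≃* FreeGroup X) (L : ℕ) (lt : ℤ → X × Bool) (u : ℤ → FreeGroup X),
  Ln (α w) L lt u ∧ ∀ (A : Set (X × Bool)) (x : X × Bool), x ∈ A → nv x ∉ A → Cut L lt A x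

/-- WG: the Whitehead graph of a word of minimal length -/
def T_WG : Prop := ∀ (X : Type) [Finite X] (w : FreeGroup X) (L : ℕ) (lt : ℤ → X × Bool)
  (u : ℤ → FreeGroup X), Ln w L lt u →
  (∀ (A : Set (X × Bool)) (x : X × Bool), x ∈ A → nv x ∉ A → Cut L lt A x) →
  (∀ x : X, ∃ i, (lt i).1 = x) → WhG lt

/-- WF: restriction to the letters which occur -/
def T_WF : Prop := ∀ (X : Type) [Finite X] (w : FreeGroup X) (L : ℕ) (lt : ℤ → X × Bool)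
  (u : ℤ → FreeGroup X), Ln w L lt u →
  ∃ (X1 X2 : Type) (_ : Finite X1) (_ : Finite X2) (e : X ≃ X1 ⊕ X2) (w1 : FreeGroup X1)
    (lt1 : ℤ → X1 × Bool) (u1 : ℤ → FreeGroup X1), Ln w1 L lt1 u1 ∧
    FreeGroup.freeGroupCongr e w = fl w1 ∧
    (∀ i, lt i = (e.symm (Sum.inl (lt1 i).1), (lt1 i).2)) ∧ ∀ x : X1, ∃ i, (lt1 i).1 = x

/-- WR: the reduction -/
def T_WR : Prop := ∀ (X : Type) [Finite X] (w : FreeGroup X), Root w → ¬ Prim w →
  ∃ (X1 X2 : Type) (_ : Finite X1) (_ : Finite X2) (α : FreeGroup X ≃* FreeGroup (X1 ⊕ X2))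
    (w1 : FreeGroup X1), α w = fl w1 ∧ Root w1 ∧ Wh w1 ∧ Nontrivial X1

/-! ## 7. The main theorem -/

/-- SU: the situation of the main theorem -/
def T_SU : Prop := ∀ (X1 X2 P G : Type) [Group P] [Group G] (w : FreeGroup X1) (a : P)
  (iF : FreeGroup (X1 ⊕ X2) →* G) (iP : P →* G),
  IsPO (zpowersHom (FreeGroup (X1 ⊕ X2)) (fl w)) (zpowersHom P a) iF iP →
  Root w → Wh w → Finite X1 → Nontrivial X1 → KK P → Inf a →
  ∃ (S : GTree G) (r b : S.V), Su w a iF iP S r b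

/-- F3: `P` is mapped to a conjugate of `P'` -/
def T_F3 : Prop := ∀ (X1 X2 P G : Type) [Group P] [Group G] (w : FreeGroup X1) (a : P)
  (iF : FreeGroup (X1 ⊕ X2) →* G) (iP : P →* G) (S : GTree G) (r b : S.V)
  (X1' X2' P' G' : Type) [Group P'] [Group G'] (w' : FreeGroup X1') (a' : P')
  (iF' : FreeGroup (X1' ⊕ X2') →* G') (iP' : P' →* G') (S' : GTree G') (r' b' : S'.V),
  Su w a iF iP S r b → Su w' a' iF' iP' S' r' b' → ∀ φ : G ≃* G',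
  ∃ g : G', ∀ x : G, x ∈ iP.range ↔ g * φ x * g⁻¹ ∈ iP'.range

/-- F4: the free factor is mapped into the stabiliser of a blue vertex -/
def T_F4 : Prop := ∀ (X1 X2 P G : Type) [Group P] [Group G] (w : FreeGroup X1) (a : P)
  (iF : FreeGroup (X1 ⊕ X2) →* G) (iP : P →* G) (S : GTree G) (r b : S.V)
  (X1' X2' P' G' : Type) [Group P'] [Group G'] (w' : FreeGroup X1') (a' : P')
  (iF' : FreeGroup (X1' ⊕ X2') →* G') (iP' : P' →* G') (S' : GTree G') (r' b' : S'.V),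
  Su w a iF iP S r b → Su w' a' iF' iP' S' r' b' → ∀ φ : G ≃* G',
  (∀ x : G, x ∈ iP.range ↔ φ x ∈ iP'.range) →
  ∃ v : S'.V, ¬ S'.red v ∧ ∀ y : FreeGroup X1, φ (iF (fl y)) • v = v

/-- F5: after a conjugation by an element of `P'` the free factor is mapped into `F'` -/
def T_F5 : Prop := ∀ (X1 X2 P G : Type) [Group P] [Group G] (w : FreeGroup X1) (a : P)
  (iF : FreeGroup (X1 ⊕ X2) →* G) (iP : P →* G) (S : GTree G) (r b : S.V)
  (X1' X2' P' G' : Type) [Group P'] [Group G'] (w' : FreeGroup X1') (a' : P')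
  (iF' : FreeGroup (X1' ⊕ X2') →* G') (iP' : P' →* G') (S' : GTree G') (r' b' : S'.V),
  Su w a iF iP S r b → Su w' a' iF' iP' S' r' b' → ∀ φ : G ≃* G',
  (∀ x : G, x ∈ iP.range ↔ φ x ∈ iP'.range) →
  ∃ p ∈ iP'.range, ∀ y : FreeGroup X1, p * φ (iF (fl y)) * p⁻¹ ∈ iF'.range

/-- F6: the free factor is mapped into the free factor -/
def T_F6 : Prop := ∀ (X1 X2 P G : Type) [Group P] [Group G] (w : FreeGroup X1) (a : P)
  (iF : FreeGroup (X1 ⊕ X2) →* G) (iP : P →* G) (S : GTree G) (r b : S.V)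
  (X1' X2' P' G' : Type) [Group P'] [Group G'] (w' : FreeGroup X1') (a' : P')
  (iF' : FreeGroup (X1' ⊕ X2') →* G') (iP' : P' →* G') (S' : GTree G') (r' b' : S'.V),
  Su w a iF iP S r b → Su w' a' iF' iP' S' r' b' → ∀ φ : G ≃* G',
  (∀ x : G, x ∈ iP.range ↔ φ x ∈ iP'.range) →
  (∀ y : FreeGroup X1, φ (iF (fl y)) ∈ iF'.range) →
  ∀ y : FreeGroup X1, φ (iF (fl y)) ∈ (iF'.comp fl).range

/-- F7: both subgroups are preserved after a conjugation -/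
def T_F7 : Prop := ∀ (X1 X2 P G : Type) [Group P] [Group G] (w : FreeGroup X1) (a : P)
  (iF : FreeGroup (X1 ⊕ X2) →* G) (iP : P →* G) (S : GTree G) (r b : S.V)
  (X1' X2' P' G' : Type) [Group P'] [Group G'] (w' : FreeGroup X1') (a' : P')
  (iF' : FreeGroup (X1' ⊕ X2') →* G') (iP' : P' →* G') (S' : GTree G') (r' b' : S'.V),
  Su w a iF iP S r b → Su w' a' iF' iP' S' r' b' → Nonempty (G ≃* G') →
  ∃ φ : G ≃* G', (∀ x : G, x ∈ iP.range ↔ φ x ∈ iP'.range) ∧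
  ∀ x : G, x ∈ (iF.comp fl).range ↔ φ x ∈ (iF'.comp fl).range

/-- X2: the quotient by the normal closure of `P` and the free factor -/
def T_X2 : Prop := ∀ (X1 X2 P G : Type) [Group P] [Group G] (w : FreeGroup X1) (a : P)
  (iF : FreeGroup (X1 ⊕ X2) →* G) (iP : P →* G),
  IsPO (zpowersHom (FreeGroup (X1 ⊕ X2)) (fl w)) (zpowersHom P a) iF iP →
  Nonempty (G ⧸ Subgroup.normalClosure ((iP.range : Set G) ∪ ((iF.comp fl).range : Set G)) ≃*
    FreeGroup X2)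

/-- CO: the core of the main theorem -/
def T_CO : Prop := ∀ (X1 X2 P G : Type) [Group P] [Group G] (w : FreeGroup X1) (a : P)
  (iF : FreeGroup (X1 ⊕ X2) →* G) (iP : P →* G)
  (X1' X2' P' G' : Type) [Group P'] [Group G'] (w' : FreeGroup X1') (a' : P')
  (iF' : FreeGroup (X1' ⊕ X2') →* G') (iP' : P' →* G'),
  IsPO (zpowersHom (FreeGroup (X1 ⊕ X2)) (fl w)) (zpowersHom P a) iF iP →
  IsPO (zpowersHom (FreeGroup (X1' ⊕ X2')) (fl w')) (zpowersHom P' a') iF' iP' →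
  Root w → Wh w → Finite X1 → Nontrivial X1 → KK P → Inf a →
  Root w' → Wh w' → Finite X1' → Nontrivial X1' → KK P' → Inf a' → Nonempty (G ≃* G') →
  ∃ (α : FreeGroup X1 ≃* FreeGroup X1') (β : P ≃* P'), Nonempty (FreeGroup X2 ≃* FreeGroup X2') ∧
    ((α w = w' ∧ β a = a') ∨ (α w = w'⁻¹ ∧ β a = a'⁻¹))

/-- RI: rigidity of amalgamated products -/
def T_RI : Prop := ∀ (X X' P P' G G' : Type) [Finite X] [Finite X'] [Group P] [Group P']
  [Group G] [Group G'] (w : FreeGroup X) (w' : FreeGroup X') (a : P) (a' : P')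
  (iF : FreeGroup X →* G) (iP : P →* G) (iF' : FreeGroup X' →* G') (iP' : P' →* G'),
  IsPO (zpowersHom (FreeGroup X) w) (zpowersHom P a) iF iP →
  IsPO (zpowersHom (FreeGroup X') w') (zpowersHom P' a') iF' iP' →
  Root w → ¬ Prim w → KK P → Inf a → Root w' → ¬ Prim w' → KK P' → Inf a' →
  (Nonempty (G ≃* G') ↔ ∃ (α : FreeGroup X ≃* FreeGroup X') (β : P ≃* P'),
    (α w = w' ∧ β a = a') ∨ (α w = w'⁻¹ ∧ β a = a'⁻¹))

/-! ## 8. The concrete groups -/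

/-- PA: the amalgamated product as a pushout -/
def T_PA : Prop := ∀ (X P : Type) [Group P] (w : FreeGroup X) (a : P),
  ∃ (iF : FreeGroup X →* Amal w a) (iP : P →* Amal w a),
  IsPO (zpowersHom (FreeGroup X) w) (zpowersHom P a) iF iP

/-- PB: the one-relator groups as pushouts -/
def T_PB : Prop := ∀ (X : Type) (w : FreeGroup X) (p q : ℤ),
  (∃ (iF : FreeGroup X →* OR (relA w p q)) (iP : BS p q →* OR (relA w p q)),
    IsPO (zpowersHom (FreeGroup X) w) (zpowersHom (BS p q) (bsA p q)) iF iP) ∧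
  (∃ (iF : FreeGroup X →* OR (relC w p q)) (iP : TK p q →* OR (relC w p q)),
    IsPO (zpowersHom (FreeGroup X) w) (zpowersHom (TK p q) (tkA p q)) iF iP)

/-- BK: Baumslag-Solitar groups are in the class `KK` -/
def T_BK : Prop := ∀ p q : ℤ, p ≠ 0 → q ≠ 0 → KK (BS p q) ∧ Inf (bsA p q)

/-- BM: the modular homomorphism of a Baumslag-Solitar group -/
def T_BM : Prop := ∀ p q : ℤ, p ≠ 0 → q ≠ 0 → ∃ Δ : BS p q →* ℚˣ,
  ((Δ (bsT p q) : ℚˣ) : ℚ) = (q : ℚ) / p ∧ Δ (bsA p q) = 1 ∧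
  ∀ (g : BS p q) (m n : ℤ), g * bsA p q ^ m * g⁻¹ = bsA p q ^ n →
    (n : ℚ) = ((Δ g : ℚˣ) : ℚ) * m

/-- BA: invariants of the pair (Baumslag-Solitar group, `a`) -/
def T_BA : Prop := ∀ p q : ℤ, p ≠ 0 → q ≠ 0 →
  (∀ m : ℤ, bsA p q ^ m ∈ commutator (BS p q) ↔ (p - q) ∣ m) ∧
  (∀ m : ℤ, (∀ g : BS p p, g * bsA p p ^ m = bsA p p ^ m * g) ↔ p ∣ m)

/-- BC: classification of the pairs (Baumslag-Solitar group, `a`) -/
def T_BC : Prop := ∀ p q p' q' : ℤ, p ≠ 0 → q ≠ 0 → p' ≠ 0 → q' ≠ 0 →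
  ((∃ β : BS p q ≃* BS p' q', β (bsA p q) = bsA p' q' ∨ β (bsA p q) = (bsA p' q')⁻¹) →
    ((p' = p ∧ q' = q) ∨ (p' = -p ∧ q' = -q) ∨ (p' = q ∧ q' = p) ∨ (p' = -q ∧ q' = -p))) ∧
  (((p' = p ∧ q' = q) ∨ (p' = -p ∧ q' = -q) ∨ (p' = q ∧ q' = p) ∨ (p' = -q ∧ q' = -p)) →
    (∃ β : BS p q ≃* BS p' q', β (bsA p q) = bsA p' q') ∧
    (∃ β : BS p q ≃* BS p' q', β (bsA p q) = (bsA p' q')⁻¹))

/-- KC: the groups `⟨a, t | a^p = t^q⟩` are in the class `KK` -/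
def T_KC : Prop := ∀ p q : ℤ, 2 ≤ |p| → 2 ≤ |q| → KK (TK p q) ∧ Inf (tkA p q)

/-- KI: invariants of the pair (`⟨a, t | a^p = t^q⟩`, `a`) -/
def T_KI : Prop := ∀ p q : ℤ, 2 ≤ |p| → 2 ≤ |q| →
  (∀ m : ℤ, (∀ g : TK p q, g * tkA p q ^ m = tkA p q ^ m * g) ↔ p ∣ m) ∧
  Nonempty (TK p q ⧸ Subgroup.normalClosure {tkA p q} ≃* Multiplicative (ZMod q.natAbs))

/-- KD: classification of the pairs (`⟨a, t | a^p = t^q⟩`, `a`), and comparison with the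
Baumslag-Solitar groups -/
def T_KD : Prop := ∀ p q p' q' : ℤ, 2 ≤ |p| → 2 ≤ |q| →
  (2 ≤ |p'| → 2 ≤ |q'| →
    ((∃ β : TK p q ≃* TK p' q', β (tkA p q) = tkA p' q' ∨ β (tkA p q) = (tkA p' q')⁻¹) →
      |p'| = |p| ∧ |q'| = |q|) ∧
    (|p'| = |p| ∧ |q'| = |q| →
      (∃ β : TK p q ≃* TK p' q', β (tkA p q) = tkA p' q') ∧
      (∃ β : TK p q ≃* TK p' q', β (tkA p q) = (tkA p' q')⁻¹))) ∧
  (p' ≠ 0 → q' ≠ 0 →
    ¬ ∃ β : TK p q ≃* BS p' q', β (tkA p q) = bsA p' q' ∨ β (tkA p q) = (bsA p' q')⁻¹)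

end ORg
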