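import Pool.Agent.H5.OR.Targets3

/-!
# Isomorphism problem for one-relator groups (MP_e1fd52_al): final form of the theorem on several
words (target, board ors_modules)
-/

set_option autoImplicit false

open scoped Classical

namespace ORg

/-- MX: the theorem on several words -/
def T_MX : Prop := ∀ (I I' Y Y' : Type) [Finite I] [Finite I'] [Nonempty I] [Nonempty I']
  (X : I → Type) (X' : I' → Type) [∀ i, Finite (X i)] [∀ i, Finite (X' i)]
  (w : ∀ i, FreeGroup (X i)) (w' : ∀ i, FreeGroup (X' i)) (R : Set (FreeGroup (I ⊕ Y)))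
  (R' : Set (FreeGroup (I' ⊕ Y'))), (∀ i, Root (w i) ∧ ¬ Prim (w i)) →
  (∀ i, Root (w' i) ∧ ¬ Prim (w' i)) → KS (PresentedGroup R) → KS (PresentedGroup R') →
  (∀ i, Inf (PresentedGroup.of (Sum.inl i) : PresentedGroup R)) →
  (∀ i, Inf (PresentedGroup.of (Sum.inl i) : PresentedGroup R')) →
  (Nonempty (PresentedGroup (subW w '' R) ≃* PresentedGroup (subW w' '' R')) ↔
    ∃ (σ : I ≃ I') (e : I → ℤ) (β : PresentedGroup R ≃* PresentedGroup R')
      (θ : FreeGroup (Σ i, X i) ≃* FreeGroup (Σ i, X' i)), ∀ i, (e i = 1 ∨ e i = -1) ∧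
      (∃ g : PresentedGroup R', β (PresentedGroup.of (Sum.inl i)) =
        g * PresentedGroup.of (Sum.inl (σ i)) ^ e i * g⁻¹) ∧
      ∃ g : FreeGroup (Σ i, X' i), θ (FreeGroup.map (Sigma.mk i) (w i)) =
        g * FreeGroup.map (Sigma.mk (σ i)) (w' (σ i)) ^ e i * g⁻¹)

end ORg
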